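import Pool.Agent.LibNZ69.Defs

set_option autoImplicit false

namespace Pool.Agent.LibNZ69

/-! Row A1 (SHORT). Algebra of the action; all by induction on the word and `ring`. -/

theorem act_append (u w : List ℕ) (v : ℤ × ℤ) : act (u ++ w) v = act u (act w v) := by
  induction u with
  | nil => rfl
  | cons a u ih => simp only [List.cons_append, act, ih]

theorem row_append (u w : List ℕ) (v : ℤ × ℤ) : row (u ++ w) v = row w (row u v) := by
  induction u generalizing v with
  | nil => rfl
  | cons a u ih => simp only [List.cons_append, row, ih]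

theorem acti_append (u w : List ℕ) (v : ℤ × ℤ) : acti (u ++ w) v = acti w (acti u v) := by
  induction u generalizing v with
  | nil => rfl
  | cons a u ih => simp only [List.cons_append, acti, ih]

theorem acti_act (w : List ℕ) (v : ℤ × ℤ) : acti w (act w v) = v := by
  induction w generalizing v with
  | nil => rfl
  | cons a w ih =>
    have h : gi a (gl a (act w v)) = act w v := by
      ext <;> simp [gi, gl]
    simp only [act, acti, h, ih]

theorem act_acti (w : List ℕ) (v : ℤ × ℤ) : act w (acti w v) = v := by
  induction w generalizing v with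
  | nil => rfl
  | cons a w ih =>
    simp only [act, acti, ih]
    ext <;> simp [gi, gl]

private theorem A1_gl_add (a : ℕ) (x y : ℤ × ℤ) : gl a (x + y) = gl a x + gl a y := by
  ext <;> simp [gl] <;> ring

private theorem A1_gl_smul (a : ℕ) (k : ℤ) (x : ℤ × ℤ) : gl a (k • x) = k • gl a x := by
  ext <;> simp [gl] <;> ring

private theorem A1_gi_smul (a : ℕ) (k : ℤ) (x : ℤ × ℤ) : gi a (k • x) = k • gi a x := by
  ext <;> simp [gi] <;> ring

theorem act_add (w : List ℕ) (x y : ℤ × ℤ) : act w (x + y) = act w x + act w y := by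
  induction w with
  | nil => rfl
  | cons a w ih => simp only [act, ih, A1_gl_add]

theorem act_smul (w : List ℕ) (k : ℤ) (x : ℤ × ℤ) : act w (k • x) = k • act w x := by
  induction w with
  | nil => rfl
  | cons a w ih => simp only [act, ih, A1_gl_smul]

theorem act_neg (w : List ℕ) (x : ℤ × ℤ) : act w (-x) = -act w x := by
  have h := act_smul w (-1) x
  rwa [neg_one_smul, neg_one_smul] at h

theorem acti_smul (w : List ℕ) (k : ℤ) (x : ℤ × ℤ) : acti w (k • x) = k • acti w x := by
  induction w generalizing x with
  | nil => rfl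
  | cons a w ih => simp only [acti, A1_gi_smul, ih]

theorem acti_neg (w : List ℕ) (x : ℤ × ℤ) : acti w (-x) = -acti w x := by
  have h := acti_smul w (-1) x
  rwa [neg_one_smul, neg_one_smul] at h

theorem act_ne_zero (w : List ℕ) (x : ℤ × ℤ) (h : x ≠ 0) : act w x ≠ 0 := by
  intro h0
  apply h
  have h1 := acti_act w x
  rw [h0] at h1
  have h2 := acti_smul w 0 0
  rw [zero_smul, zero_smul] at h2
  rw [h2] at h1
  exact h1.symm

theorem wdg_act (w : List ℕ) (x y : ℤ × ℤ) :
    wdg (act w x) (act w y) = (-1) ^ w.length * wdg x y := by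
  induction w with
  | nil => simp [act]
  | cons a w ih =>
    have h : ∀ p q : ℤ × ℤ, wdg (gl a p) (gl a q) = -wdg p q := by
      intro p q
      simp only [wdg, gl]
      ring
    simp only [act, h, ih, List.length_cons, pow_succ]
    ring

theorem abs_wdg_act (w : List ℕ) (x y : ℤ × ℤ) : |wdg (act w x) (act w y)| = |wdg x y| := by
  rw [wdg_act, abs_mul, abs_pow, abs_neg, abs_one, one_pow, one_mul]

theorem dvd_wdg_act (q : ℤ) (w : List ℕ) (x y : ℤ × ℤ) :
    q ∣ wdg (act w x) (act w y) ↔ q ∣ wdg x y := by
  rw [← dvd_abs, abs_wdg_act, dvd_abs]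

theorem dvd_wdg_acti (q : ℤ) (w : List ℕ) (x y : ℤ × ℤ) :
    q ∣ wdg (acti w x) y ↔ q ∣ wdg x (act w y) := by
  have h := dvd_wdg_act q w (acti w x) y
  rw [act_acti] at h
  exact h.symm

theorem dt_row (w : List ℕ) (u v : ℤ × ℤ) : dt (row w u) v = dt u (act w v) := by
  induction w generalizing u with
  | nil => rfl
  | cons a w ih =>
    simp only [row, act, ih]
    simp only [dt, gl]
    ring

theorem dt_split (u w : List ℕ) : dt (row u (0, 1)) (vec w) = (vec (u ++ w)).2 := by
  rw [dt_row, vec, vec, act_append]
  simp [dt]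

theorem coprime_act (w : List ℕ) (v : ℤ × ℤ) (h : IsCoprime v.1 v.2) :
    IsCoprime (act w v).1 (act w v).2 := by
  induction w with
  | nil => exact h
  | cons a w ih =>
    simp only [act, gl]
    have h1 := ih.symm
    exact IsCoprime.add_mul_right_right h1 (a : ℤ)

theorem coprime_vec (w : List ℕ) : IsCoprime (vec w).1 (vec w).2 := by
  refine coprime_act w (1, 2) ?_
  exact isCoprime_one_left

end Pool.Agent.LibNZ69
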