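import Pool.Agent.LibNZ69.A2

set_option autoImplicit false

namespace Pool.Agent.LibNZ69

/-- Row C2 (SHORT/MEDIUM). The rest word determines the indivisible vector up to sign. -/
theorem unique_pm (q : ℕ) (v z z' : ℤ × ℤ) (hv : IsCoprime v.1 v.2) (hz : z ≠ 0) (hz' : z' ≠ 0)
    (h : (q : ℤ) ∣ wdg z v) (h' : (q : ℤ) ∣ wdg z' v)
    (hs : 8 * (nm z) ^ 2 < (q : ℤ)) (hs' : 8 * (nm z') ^ 2 < (q : ℤ))
    (hind : ∀ g : ℤ × ℤ, (q : ℤ) ∣ wdg g v → ∀ k : ℤ, z = k • g → k = 1 ∨ k = -1)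
    (hind' : ∀ g : ℤ × ℤ, (q : ℤ) ∣ wdg g v → ∀ k : ℤ, z' = k • g → k = 1 ∨ k = -1) :
    z' = z ∨ z' = -z := by
  have h0 : wdg z z' = 0 := wdg_eq_zero (q : ℤ) v z z' hv h h' (by
    nlinarith [sq_nonneg (nm z - nm z'), sq_nonneg (nm z), sq_nonneg (nm z')])
  obtain ⟨g, -, hg, ⟨k, hk⟩, hall⟩ := line_gen (q : ℤ) v z hz h
  obtain ⟨k', hk'⟩ := hall z' h0 h'
  have e1 := hind g hg k hk
  have e2 := hind' g hg k' hk'
  rcases e1 with rfl | rfl <;> rcases e2 with rfl | rfl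
  · left
    rw [hk, hk']
  · right
    rw [hk, hk', one_smul, neg_one_smul]
  · right
    rw [hk, hk', one_smul, neg_one_smul, neg_neg]
  · left
    rw [hk, hk']

end Pool.Agent.LibNZ69
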