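import Pool.Agent.LibNZ69.A1

set_option autoImplicit false

namespace Pool.Agent.LibNZ69

/-! Row RES (SHORT). Link with the definitions of the problem (the same as in the landed file
`Results/MP_28c842_nt/Multiples.lean`, whose private lemmas may be copied): the list `w ++ [2]` has
continued fraction `(vec w).1 / (vec w).2`. -/

/-- The value of the continued fraction `[a_1, ..., a_k]`. -/
def cf : List ℕ → ℚ
  | [] => 0
  | a :: l => 1 / ((a : ℚ) + cf l)

/-- The set of the integers `d ≥ 2` for which some `b` with `1 ≤ b < d`, prime to `d`, has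
`b / d = [a_1, ..., a_k]` with all `a_j` between `1` and `A` and with `a_k ≥ 2`. -/
def D (A : ℕ) : Set ℕ :=
  {d | 2 ≤ d ∧ ∃ b : ℕ, 1 ≤ b ∧ b < d ∧ b.Coprime d ∧ ∃ (l : List ℕ) (h : l ≠ []),
    (∀ a ∈ l, 1 ≤ a ∧ a ≤ A) ∧ 2 ≤ l.getLast h ∧ (b : ℚ) / d = cf l}

/-- denominator and numerator -/
private def RES_K : List ℕ → ℕ × ℕ
  | [] => (1, 0)
  | a :: l => (a * (RES_K l).1 + (RES_K l).2, (RES_K l).1)

private theorem RES_K_nil : RES_K [] = (1, 0) := rfl

private theorem RES_K_cons (a : ℕ) (l : List ℕ) :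
    RES_K (a :: l) = (a * (RES_K l).1 + (RES_K l).2, (RES_K l).1) := rfl

private theorem RES_K_pos (l : List ℕ) (h : ∀ a ∈ l, 1 ≤ a) : 1 ≤ (RES_K l).1 := by
  induction l with
  | nil => exact le_rfl
  | cons a l ih =>
    rw [RES_K_cons]
    have h1 := ih fun b hb => h b (List.mem_cons_of_mem _ hb)
    have h2 := h a List.mem_cons_self
    have h3 : 1 ≤ a * (RES_K l).1 := Nat.mul_pos h2 h1
    show 1 ≤ a * (RES_K l).1 + (RES_K l).2
    omega

private theorem RES_K_coprime (l : List ℕ) : Nat.Coprime (RES_K l).2 (RES_K l).1 := by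
  induction l with
  | nil => exact Nat.coprime_zero_left 1 |>.2 rfl
  | cons a l ih =>
    rw [RES_K_cons]
    show Nat.Coprime (RES_K l).1 (a * (RES_K l).1 + (RES_K l).2)
    rw [Nat.add_comm, Nat.coprime_add_mul_right_right]
    exact ih.symm

private theorem RES_K_num_pos (l : List ℕ) (h : ∀ a ∈ l, 1 ≤ a) (hl : l ≠ []) :
    1 ≤ (RES_K l).2 := by
  cases l with
  | nil => exact absurd rfl hl
  | cons a l => exact RES_K_pos l fun b hb => h b (List.mem_cons_of_mem _ hb)

private theorem RES_K_lt (l : List ℕ) (h : ∀ a ∈ l, 1 ≤ a) (hl : l ≠ [])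
    (h2 : 2 ≤ l.getLast hl) : (RES_K l).2 < (RES_K l).1 := by
  cases l with
  | nil => exact absurd rfl hl
  | cons a l =>
    rw [RES_K_cons]
    show (RES_K l).1 < a * (RES_K l).1 + (RES_K l).2
    by_cases hn : l = []
    · subst hn
      rw [List.getLast_singleton] at h2
      simp only [RES_K_nil]
      omega
    · have h3 := RES_K_num_pos l (fun b hb => h b (List.mem_cons_of_mem _ hb)) hn
      have h4 := h a List.mem_cons_self
      have h5 : (RES_K l).1 ≤ a * (RES_K l).1 := Nat.le_mul_of_pos_left _ h4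
      omega

private theorem RES_cf_eq (l : List ℕ) (h : ∀ a ∈ l, 1 ≤ a) :
    cf l = ((RES_K l).2 : ℚ) / (RES_K l).1 := by
  induction l with
  | nil => simp [cf, RES_K_nil]
  | cons a l ih =>
    have h1 := RES_K_pos l fun b hb => h b (List.mem_cons_of_mem _ hb)
    have h2 := RES_K_pos (a :: l) h
    have h3 : ((RES_K l).1 : ℚ) ≠ 0 := by positivity
    rw [cf, ih fun b hb => h b (List.mem_cons_of_mem _ hb)]
    rw [RES_K_cons] at h2 ⊢
    have h4 : (((a * (RES_K l).1 + (RES_K l).2 : ℕ)) : ℚ) ≠ 0 := by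
      have : (0 : ℚ) < ((a * (RES_K l).1 + (RES_K l).2 : ℕ) : ℚ) := by exact_mod_cast h2
      exact this.ne'
    show 1 / ((a : ℚ) + ((RES_K l).2 : ℚ) / (RES_K l).1) =
      ((RES_K l).1 : ℚ) / ((a * (RES_K l).1 + (RES_K l).2 : ℕ) : ℚ)
    have h5 : (a : ℚ) + ((RES_K l).2 : ℚ) / (RES_K l).1 =
        ((a * (RES_K l).1 + (RES_K l).2 : ℕ) : ℚ) / (RES_K l).1 := by
      push_cast
      field_simp
    rw [h5, one_div_div]

private theorem RES_vec (w : List ℕ) :
    vec w = (((RES_K (w ++ [2])).2 : ℤ), ((RES_K (w ++ [2])).1 : ℤ)) := by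
  induction w with
  | nil => rfl
  | cons a w ih =>
    have h1 : vec (a :: w) = gl a (vec w) := rfl
    rw [h1, ih, List.cons_append, RES_K_cons]
    unfold gl
    push_cast
    ext
    · rfl
    · show ((RES_K (w ++ [2])).2 : ℤ) + a * ((RES_K (w ++ [2])).1 : ℤ) =
        a * ((RES_K (w ++ [2])).1 : ℤ) + ((RES_K (w ++ [2])).2 : ℤ)
      ring

theorem mem_D_of_vec (w : List ℕ) (hw : ∀ a ∈ w, 1 ≤ a ∧ a ≤ 3) (d : ℕ)
    (h : (vec w).2 = (d : ℤ)) : d ∈ D 3 := by
  have hd : (RES_K (w ++ [2])).1 = d := by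
    rw [RES_vec w] at h
    have h' : ((RES_K (w ++ [2])).1 : ℤ) = (d : ℤ) := h
    exact_mod_cast h'
  have hne : w ++ [2] ≠ [] := by simp
  have hl : ∀ a ∈ w ++ [2], 1 ≤ a ∧ a ≤ 3 := by
    intro a ha
    rcases List.mem_append.1 ha with ha | ha
    · exact hw a ha
    · rw [List.mem_singleton.1 ha]
      omega
  have h1 : ∀ a ∈ w ++ [2], 1 ≤ a := fun a ha => (hl a ha).1
  have hlast : 2 ≤ (w ++ [2]).getLast hne := by
    rw [List.getLast_append_singleton]
  have h3 := RES_K_num_pos (w ++ [2]) h1 hne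
  have h4 := RES_K_lt (w ++ [2]) h1 hne hlast
  rw [← hd]
  exact ⟨by omega, (RES_K (w ++ [2])).2, h3, h4, RES_K_coprime _, w ++ [2], hne, hl, hlast,
    (RES_cf_eq _ h1).symm⟩

end Pool.Agent.LibNZ69
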