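import Pool.Agent.LibNZ69.A2

set_option autoImplicit false

namespace Pool.Agent.LibNZ69

/-! Row G1 (SHORT). -/

/-- `close` says `k v - k' v' - t = M ζ`; put `z = a q' v - a' q v' - q q' ζ`. -/
theorem rel_of_close (M H k q : ℕ) (a : ℤ) (v : ℤ × ℤ) (k' q' : ℕ) (a' : ℤ) (v' : ℤ × ℤ)
    (h : close M H ((k : ℤ) • v) ((k' : ℤ) • v')) : ∃ z, Rel M H k q a v k' q' a' v' z := by
  obtain ⟨t, ht, ⟨c1, h1⟩, ⟨c2, h2⟩⟩ := h
  simp only [Prod.smul_fst, Prod.smul_snd, smul_eq_mul] at h1 h2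
  refine ⟨(a * q' * v.1 - q * a' * v'.1 - q * q' * c1, a * q' * v.2 - q * a' * v'.2 - q * q' * c2),
    (c1, c2), t, ht, ?_, ?_⟩
  · apply Prod.ext
    · simp only [Prod.smul_fst, Prod.fst_sub, smul_eq_mul]
      ring
    · simp only [Prod.smul_snd, Prod.snd_sub, smul_eq_mul]
      ring
  · apply Prod.ext
    · simp only [Prod.smul_fst, Prod.fst_sub, Prod.fst_add, smul_eq_mul]
      linear_combination ((q : ℤ) * q') * h1
    · simp only [Prod.smul_snd, Prod.snd_sub, Prod.snd_add, smul_eq_mul]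
      linear_combination ((q : ℤ) * q') * h2

/-- consequence used for `z` and for `q'` -/
theorem rel_dvd {M H k q : ℕ} {a : ℤ} {v : ℤ × ℤ} {k' q' : ℕ} {a' : ℤ} {v' z : ℤ × ℤ}
    (h : Rel M H k q a v k' q' a' v' z) :
    (q : ℤ) ∣ a * q' * v.1 - z.1 ∧ (q : ℤ) ∣ a * q' * v.2 - z.2 ∧ (q : ℤ) ∣ wdg z v := by
  obtain ⟨c, t, -, h1, -⟩ := h
  have e1 := congrArg Prod.fst h1
  have e2 := congrArg Prod.snd h1
  simp only [Prod.smul_fst, Prod.fst_sub, smul_eq_mul] at e1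
  simp only [Prod.smul_snd, Prod.snd_sub, smul_eq_mul] at e2
  refine ⟨⟨a' * v'.1 + q' * c.1, by linear_combination -e1⟩,
    ⟨a' * v'.2 + q' * c.2, by linear_combination -e2⟩,
    ⟨(a' * v'.2 + q' * c.2) * v.1 - (a' * v'.1 + q' * c.1) * v.2, ?_⟩⟩
  unfold wdg
  linear_combination v.2 * e1 - v.1 * e2

/-- one coordinate of the size of `z` -/
private theorem G1_coord {M H k q : ℕ} {a : ℤ} {k' q' : ℕ} {a' : ℤ} (B n₁ n₂ i j : ℕ)
    (hB : 2 ^ 16 ≤ B)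
    (hM : M = 4 * (4 * B) ^ (n₁ + n₂) + 1) (hH : 8 * (H * (4 * B) ^ n₁) ≤ M)
    (hk : Fr M B i j k q a) (hk' : Fr M B i j k' q' a') {v v' z t : ℤ}
    (hv : |v| ≤ 2 * (4 * B) ^ n₂) (hv' : |v'| ≤ 2 * (4 * B) ^ n₂) (ht : |t| < H)
    (h : (M : ℤ) * z = ((q : ℤ) * q') * t - ((q' : ℤ) * ((q : ℤ) * k - a * M)) * v +
      ((q : ℤ) * ((q' : ℤ) * k' - a' * M)) * v') :
    |z| ≤ ((2 * B ^ (3 + 2 * i + j) / (4 * B) ^ n₁ : ℕ) : ℤ) := by
  have hBp : (0 : ℤ) < B := by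
    have : (2 ^ 16 : ℤ) ≤ B := by exact_mod_cast hB
    linarith
  have hB1 : (1 : ℤ) ≤ B := by linarith
  have hMp : (0 : ℤ) < M := by
    rw [hM]
    positivity
  have hMz : (M : ℤ) = 4 * (4 * B) ^ (n₁ + n₂) + 1 := by rw [hM]; push_cast; ring
  have hHz : 8 * ((H : ℤ) * (4 * B) ^ n₁) ≤ M := by exact_mod_cast hH
  have hq : (q : ℤ) ≤ (B : ℤ) ^ (i + 1) := by exact_mod_cast hk.qhi.le
  have hq' : (q' : ℤ) ≤ (B : ℤ) ^ (i + 1) := by exact_mod_cast hk'.qhi.le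
  have hq0 : (0 : ℤ) ≤ q := Int.natCast_nonneg q
  have hq0' : (0 : ℤ) ≤ q' := Int.natCast_nonneg q'
  have hP : (0 : ℤ) < (4 * B) ^ n₁ := by positivity
  have hP2 : (0 : ℤ) < (4 * B) ^ n₂ := by positivity
  have hBj : (0 : ℤ) < (B : ℤ) ^ (j + 1) := by positivity
  -- the bound of the right side
  have h1 : |(M : ℤ) * z| ≤ ((q : ℤ) * q') * (H + 4 * ((B : ℤ) ^ (j + 1) * (4 * B) ^ n₂)) := by
    rw [h]
    have b1 : |((q : ℤ) * q') * t| ≤ ((q : ℤ) * q') * H := by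
      rw [abs_mul, abs_of_nonneg (mul_nonneg hq0 hq0')]
      exact mul_le_mul_of_nonneg_left ht.le (mul_nonneg hq0 hq0')
    have b2 : |((q' : ℤ) * ((q : ℤ) * k - a * M)) * v| ≤
        ((q : ℤ) * q') * (2 * ((B : ℤ) ^ (j + 1) * (4 * B) ^ n₂)) := by
      rw [abs_mul, abs_mul, abs_of_nonneg hq0']
      calc (q' : ℤ) * |(q : ℤ) * k - a * M| * |v|
          ≤ (q' : ℤ) * ((B : ℤ) ^ (j + 1) * q) * (2 * (4 * B) ^ n₂) := by
            refine mul_le_mul (mul_le_mul_of_nonneg_left hk.rhi.le hq0') hv (abs_nonneg _) ?_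
            positivity
        _ = _ := by ring
    have b3 : |((q : ℤ) * ((q' : ℤ) * k' - a' * M)) * v'| ≤
        ((q : ℤ) * q') * (2 * ((B : ℤ) ^ (j + 1) * (4 * B) ^ n₂)) := by
      rw [abs_mul, abs_mul, abs_of_nonneg hq0]
      calc (q : ℤ) * |(q' : ℤ) * k' - a' * M| * |v'|
          ≤ (q : ℤ) * ((B : ℤ) ^ (j + 1) * q') * (2 * (4 * B) ^ n₂) := by
            refine mul_le_mul (mul_le_mul_of_nonneg_left hk'.rhi.le hq0) hv' (abs_nonneg _) ?_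
            positivity
        _ = _ := by ring
    have b4 := abs_add_le (((q : ℤ) * q') * t - ((q' : ℤ) * ((q : ℤ) * k - a * M)) * v)
      (((q : ℤ) * ((q' : ℤ) * k' - a' * M)) * v')
    have b5 : |((q : ℤ) * q') * t - ((q' : ℤ) * ((q : ℤ) * k - a * M)) * v| ≤
        |((q : ℤ) * q') * t| + |((q' : ℤ) * ((q : ℤ) * k - a * M)) * v| := by
      have := abs_add_le (((q : ℤ) * q') * t) (-(((q' : ℤ) * ((q : ℤ) * k - a * M)) * v))
      rwa [abs_neg, ← sub_eq_add_neg] at this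
    nlinarith
  have h2 : ((q : ℤ) * q') ≤ (B : ℤ) ^ (2 * i + 2) := by
    calc (q : ℤ) * q' ≤ (B : ℤ) ^ (i + 1) * (B : ℤ) ^ (i + 1) :=
          mul_le_mul hq hq' hq0' (by positivity)
      _ = (B : ℤ) ^ (2 * i + 2) := by ring
  have h3 : (M : ℤ) * (|z| * (4 * B) ^ n₁) ≤
      M * (2 * (B : ℤ) ^ (3 + 2 * i + j)) := by
    have c1 : (M : ℤ) * (|z| * (4 * B) ^ n₁) = |(M : ℤ) * z| * (4 * B) ^ n₁ := by
      rw [abs_mul, abs_of_pos hMp]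
      ring
    rw [c1]
    have c2 : |(M : ℤ) * z| * (4 * B) ^ n₁ ≤
        ((B : ℤ) ^ (2 * i + 2) * (H + 4 * ((B : ℤ) ^ (j + 1) * (4 * B) ^ n₂))) * (4 * B) ^ n₁ := by
      refine mul_le_mul_of_nonneg_right (h1.trans ?_) hP.le
      refine mul_le_mul_of_nonneg_right h2 ?_
      positivity
    refine c2.trans ?_
    have c3 : ((B : ℤ) ^ (2 * i + 2) * (H + 4 * ((B : ℤ) ^ (j + 1) * (4 * B) ^ n₂))) *
        (4 * B) ^ n₁ = (B : ℤ) ^ (2 * i + 2) * ((H * (4 * B) ^ n₁) +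
          (B : ℤ) ^ (j + 1) * (4 * (4 * B) ^ (n₁ + n₂))) := by
      rw [pow_add (4 * (B : ℤ)) n₁ n₂]
      ring
    rw [c3]
    have c4 : (H : ℤ) * (4 * B) ^ n₁ + (B : ℤ) ^ (j + 1) * (4 * (4 * B) ^ (n₁ + n₂)) ≤
        M * (2 * (B : ℤ) ^ (j + 1)) := by
      have d1 : (4 : ℤ) * (4 * B) ^ (n₁ + n₂) ≤ M := by rw [hMz]; linarith
      have d2 : (B : ℤ) ^ (j + 1) * (4 * (4 * B) ^ (n₁ + n₂)) ≤ (B : ℤ) ^ (j + 1) * M :=
        mul_le_mul_of_nonneg_left d1 hBj.le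
      have d3 : (1 : ℤ) ≤ (B : ℤ) ^ (j + 1) := one_le_pow₀ hB1
      have d4 : (M : ℤ) * 1 ≤ M * (B : ℤ) ^ (j + 1) := mul_le_mul_of_nonneg_left d3 hMp.le
      have d5 : (0 : ℤ) ≤ (H : ℤ) * (4 * B) ^ n₁ := by positivity
      nlinarith
    calc (B : ℤ) ^ (2 * i + 2) * ((H * (4 * B) ^ n₁) +
          (B : ℤ) ^ (j + 1) * (4 * (4 * B) ^ (n₁ + n₂)))
        ≤ (B : ℤ) ^ (2 * i + 2) * (M * (2 * (B : ℤ) ^ (j + 1))) :=
          mul_le_mul_of_nonneg_left c4 (by positivity)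
      _ = M * (2 * (B : ℤ) ^ (3 + 2 * i + j)) := by
          have : (B : ℤ) ^ (3 + 2 * i + j) = (B : ℤ) ^ (2 * i + 2) * (B : ℤ) ^ (j + 1) := by
            rw [← pow_add]
            congr 1
            ring
          rw [this]
          ring
  have h4 : |z| * (4 * B) ^ n₁ ≤ 2 * (B : ℤ) ^ (3 + 2 * i + j) := le_of_mul_le_mul_left h3 hMp
  rw [Int.natCast_div]
  push_cast
  rw [Int.le_ediv_iff_mul_le hP]
  exact h4

/-- size of `z` -/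
theorem nm_rel_le {M H k q : ℕ} {a : ℤ} {v : ℤ × ℤ} {k' q' : ℕ} {a' : ℤ} {v' z : ℤ × ℤ}
    (h : Rel M H k q a v k' q' a' v' z) (B n₁ n₂ i j : ℕ) (hB : 2 ^ 16 ≤ B)
    (hM : M = 4 * (4 * B) ^ (n₁ + n₂) + 1) (hH : 8 * (H * (4 * B) ^ n₁) ≤ M)
    (hk : Fr M B i j k q a) (hk' : Fr M B i j k' q' a')
    (hv : nm v ≤ 2 * (4 * B) ^ n₂) (hv' : nm v' ≤ 2 * (4 * B) ^ n₂) :
    nm z ≤ ((2 * B ^ (3 + 2 * i + j) / (4 * B) ^ n₁ : ℕ) : ℤ) := by
  obtain ⟨c, t, ht, -, h2⟩ := h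
  have e1 := congrArg Prod.fst h2
  have e2 := congrArg Prod.snd h2
  simp only [Prod.smul_fst, Prod.fst_sub, Prod.fst_add, smul_eq_mul] at e1
  simp only [Prod.smul_snd, Prod.snd_sub, Prod.snd_add, smul_eq_mul] at e2
  unfold nm at *
  refine max_le ?_ ?_
  · exact G1_coord B n₁ n₂ i j hB hM hH hk hk' ((le_max_left _ _).trans hv)
      ((le_max_left _ _).trans hv') ((le_max_left _ _).trans_lt ht) e1
  · exact G1_coord B n₁ n₂ i j hB hM hH hk hk' ((le_max_right _ _).trans hv)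
      ((le_max_right _ _).trans hv') ((le_max_right _ _).trans_lt ht) e2

end Pool.Agent.LibNZ69
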