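import Pool.Agent.LibNZ69.A2

set_option autoImplicit false

namespace Pool.Agent.LibNZ69

/-! Row G3 (SHORT/MEDIUM). Two solutions `(k', a', v')`, `(k'', a'', v'')` of `Rel` with the same
`k, q, a, v, q', z`. Subtract: (A) `a' v' - a'' v'' = q' (ζ'' - ζ')`, and (B), with
`r' = q' k' - a' M`: `r' v' - r'' v'' = q' (t'' - t')`. -/

theorem rel_sub {M H k q : ℕ} {a : ℤ} {v : ℤ × ℤ} {q' : ℕ} {z : ℤ × ℤ} (hq : 1 ≤ q)
    {k' : ℕ} {a' : ℤ} {v' : ℤ × ℤ} {k'' : ℕ} {a'' : ℤ} {v'' : ℤ × ℤ}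
    (h' : Rel M H k q a v k' q' a' v' z) (h'' : Rel M H k q a v k'' q' a'' v'' z) :
    (∃ ζ : ℤ × ℤ, a' • v' - a'' • v'' = (q' : ℤ) • ζ) ∧
      ∃ τ : ℤ × ℤ, nm τ ≤ 2 * H ∧
        ((q' : ℤ) * k' - a' * M) • v' - ((q' : ℤ) * k'' - a'' * M) • v'' = (q' : ℤ) • τ := by
  obtain ⟨ζ', t', ht', hA', hB'⟩ := h'
  obtain ⟨ζ'', t'', ht'', hA'', hB''⟩ := h''
  have hq0 : (q : ℤ) ≠ 0 := by
    have : (1 : ℤ) ≤ q := by exact_mod_cast hq
    omega
  constructor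
  · refine ⟨ζ'' - ζ', ?_⟩
    have h1 := congrArg Prod.fst hA'
    have h2 := congrArg Prod.snd hA'
    have h3 := congrArg Prod.fst hA''
    have h4 := congrArg Prod.snd hA''
    simp only [Prod.smul_fst, Prod.smul_snd, Prod.fst_sub, Prod.snd_sub, smul_eq_mul] at h1 h2 h3 h4
    refine Prod.ext ?_ ?_
    · simp only [Prod.smul_fst, Prod.fst_sub, smul_eq_mul]
      refine mul_left_cancel₀ hq0 ?_
      linear_combination h1 - h3
    · simp only [Prod.smul_snd, Prod.snd_sub, smul_eq_mul]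
      refine mul_left_cancel₀ hq0 ?_
      linear_combination h2 - h4
  · refine ⟨t'' - t', ?_, ?_⟩
    · have h := nm_sub_le t'' t'
      linarith
    · have h1 := congrArg Prod.fst hB'
      have h2 := congrArg Prod.snd hB'
      have h3 := congrArg Prod.fst hB''
      have h4 := congrArg Prod.snd hB''
      simp only [Prod.smul_fst, Prod.smul_snd, Prod.fst_sub, Prod.snd_sub, Prod.fst_add,
        Prod.snd_add, smul_eq_mul] at h1 h2 h3 h4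
      refine Prod.ext ?_ ?_
      · simp only [Prod.smul_fst, Prod.fst_sub, smul_eq_mul]
        refine mul_left_cancel₀ hq0 ?_
        linear_combination h3 - h1
      · simp only [Prod.smul_snd, Prod.snd_sub, smul_eq_mul]
        refine mul_left_cancel₀ hq0 ?_
        linear_combination h4 - h2

/-- `a'' (v' ∧ v'') ≡ 0` modulo `q'`; wedge of (B) with `v'`:
`|r''| |v' ∧ v''| ≤ q' · 2 nm v' nm τ` and `B^j q' ≤ |r''|`; for `j = 0` use `abs_wdg_le`. -/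
theorem rel_wdg {M H k q : ℕ} {a : ℤ} {v : ℤ × ℤ} {q' : ℕ} {z : ℤ × ℤ} (hq : 1 ≤ q)
    {k' : ℕ} {a' : ℤ} {v' : ℤ × ℤ} {k'' : ℕ} {a'' : ℤ} {v'' : ℤ × ℤ}
    (h' : Rel M H k q a v k' q' a' v' z) (h'' : Rel M H k q a v k'' q' a'' v'' z)
    (B n₂ i j : ℕ) (hB : 2 ^ 16 ≤ B) (hk' : Fr M B i j k' q' a') (hk'' : Fr M B i j k'' q' a'')
    (hH : H ≤ (4 * B) ^ n₂) (hv' : nm v' ≤ 2 * (4 * B) ^ n₂) (hv'' : nm v'' ≤ 2 * (4 * B) ^ n₂) :
    (q' : ℤ) ∣ wdg v' v'' ∧ |wdg v' v''| * (B : ℤ) ^ j ≤ 8 * (4 * B) ^ (2 * n₂) := by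
  obtain ⟨⟨ζ, hζ⟩, τ, hτ, hτe⟩ := rel_sub hq h' h''
  have h1 := congrArg Prod.fst hζ
  have h2 := congrArg Prod.snd hζ
  have h3 := congrArg Prod.fst hτe
  have h4 := congrArg Prod.snd hτe
  simp only [Prod.smul_fst, Prod.smul_snd, Prod.fst_sub, Prod.snd_sub, smul_eq_mul] at h1 h2 h3 h4
  have hP : (0 : ℤ) ≤ (4 * (B : ℤ)) ^ n₂ := by positivity
  have hPP : (4 * (B : ℤ)) ^ (2 * n₂) = (4 * (B : ℤ)) ^ n₂ * (4 * (B : ℤ)) ^ n₂ := by
    rw [two_mul, pow_add]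
  have hn1 := nm_nonneg v'
  have hn2 := nm_nonneg v''
  constructor
  · have e : a'' * wdg v' v'' = (q' : ℤ) * wdg ζ v' := by
      unfold wdg
      linear_combination v'.2 * h1 - v'.1 * h2
    exact hk''.cop.symm.dvd_of_dvd_mul_left ⟨_, e⟩
  · rcases hk''.rlo with hj | hj
    · subst hj
      rw [pow_zero, mul_one, hPP]
      refine (abs_wdg_le v' v'').trans ?_
      have := mul_le_mul hv' hv'' hn2 (by positivity)
      nlinarith
    · have hqp : (0 : ℤ) < q' := by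
        have h5 : 1 ≤ q' := (Nat.one_le_pow _ _ (by omega)).trans hk''.qlo
        exact_mod_cast h5
      have e : ((q' : ℤ) * k'' - a'' * M) * wdg v' v'' = (q' : ℤ) * wdg τ v' := by
        unfold wdg
        linear_combination v'.2 * h3 - v'.1 * h4
      have e' : |(q' : ℤ) * k'' - a'' * M| * |wdg v' v''| = (q' : ℤ) * |wdg τ v'| := by
        rw [← abs_mul, e, abs_mul, abs_of_pos hqp]
      have h6 : |wdg τ v'| ≤ 2 * (nm τ * nm v') := abs_wdg_le τ v'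
      have hHz : (H : ℤ) ≤ (4 * (B : ℤ)) ^ n₂ := by exact_mod_cast hH
      have h7 : nm τ * nm v' ≤ (2 * (4 * (B : ℤ)) ^ n₂) * (2 * (4 * (B : ℤ)) ^ n₂) :=
        mul_le_mul (by linarith) hv' hn1 (by positivity)
      have h8 : |wdg τ v'| ≤ 8 * (4 * (B : ℤ)) ^ (2 * n₂) := by
        rw [hPP]
        linarith
      have h9 : (B : ℤ) ^ j * q' * |wdg v' v''| ≤ (q' : ℤ) * (8 * (4 * (B : ℤ)) ^ (2 * n₂)) := by
        calc (B : ℤ) ^ j * q' * |wdg v' v''|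
            ≤ |(q' : ℤ) * k'' - a'' * M| * |wdg v' v''| :=
              mul_le_mul_of_nonneg_right hj (abs_nonneg _)
          _ = (q' : ℤ) * |wdg τ v'| := e'
          _ ≤ _ := mul_le_mul_of_nonneg_left h8 hqp.le
      refine le_of_mul_le_mul_left ?_ hqp
      calc (q' : ℤ) * (|wdg v' v''| * (B : ℤ) ^ j) = (B : ℤ) ^ j * q' * |wdg v' v''| := by ring
        _ ≤ _ := h9

/-- the same vector: `q' ∣ a' - a''` (Bezout), so `r' - r'' = q' (k' - k'' - c M)` and (B) gives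
`|k' - k'' - c M| nm v' ≤ 2 H`. -/
theorem rel_same {M H k q : ℕ} {a : ℤ} {v : ℤ × ℤ} {q' : ℕ} {z : ℤ × ℤ} (hq : 1 ≤ q)
    (hq' : 1 ≤ q') {k' : ℕ} {a' : ℤ} {v' : ℤ × ℤ} {k'' : ℕ} {a'' : ℤ}
    (h' : Rel M H k q a v k' q' a' v' z) (h'' : Rel M H k q a v k'' q' a'' v' z)
    (B n₂ : ℕ) (hB : 2 ^ 16 ≤ B) (hv : IsCoprime v'.1 v'.2)
    (hH : H ≤ (4 * B) ^ n₂) (hv' : 2 * (B : ℤ) ^ n₂ ≤ 4 ^ n₂ * nm v') :
    ∃ c : ℤ, |(k' : ℤ) - k'' - c * M| ≤ 16 ^ n₂ := by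
  obtain ⟨⟨ζ, hζ⟩, τ, hτ, hτe⟩ := rel_sub hq h' h''
  have h1 := congrArg Prod.fst hζ
  have h2 := congrArg Prod.snd hζ
  have h3 := congrArg Prod.fst hτe
  have h4 := congrArg Prod.snd hτe
  simp only [Prod.smul_fst, Prod.smul_snd, Prod.fst_sub, Prod.snd_sub, smul_eq_mul] at h1 h2 h3 h4
  have hq0 : (q' : ℤ) ≠ 0 := by
    have : (1 : ℤ) ≤ q' := by exact_mod_cast hq'
    omega
  obtain ⟨s, t, hst⟩ := hv
  have hc : a' - a'' = (q' : ℤ) * (s * ζ.1 + t * ζ.2) := by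
    linear_combination (-(a' - a'')) * hst + s * h1 + t * h2
  refine ⟨s * ζ.1 + t * ζ.2, ?_⟩
  generalize s * ζ.1 + t * ζ.2 = c at hc
  have e1 : ((k' : ℤ) - k'' - c * M) * v'.1 = τ.1 := by
    refine mul_left_cancel₀ hq0 ?_
    linear_combination h3 + M * v'.1 * hc
  have e2 : ((k' : ℤ) - k'' - c * M) * v'.2 = τ.2 := by
    refine mul_left_cancel₀ hq0 ?_
    linear_combination h4 + M * v'.2 * hc
  have e : ((k' : ℤ) - k'' - c * M) • v' = τ := Prod.ext e1 e2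
  have en : |(k' : ℤ) - k'' - c * M| * nm v' ≤ 2 * H := by
    rw [← nm_smul, e]
    exact hτ
  have hHz : (H : ℤ) ≤ (4 * (B : ℤ)) ^ n₂ := by exact_mod_cast hH
  have hBp : (0 : ℤ) < 2 * (B : ℤ) ^ n₂ := by
    have : (0 : ℤ) < B := by exact_mod_cast (by omega : 0 < B)
    positivity
  refine le_of_mul_le_mul_right ?_ hBp
  calc |(k' : ℤ) - k'' - c * M| * (2 * (B : ℤ) ^ n₂)
      ≤ |(k' : ℤ) - k'' - c * M| * (4 ^ n₂ * nm v') := mul_le_mul_of_nonneg_left hv' (abs_nonneg _)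
    _ = 4 ^ n₂ * (|(k' : ℤ) - k'' - c * M| * nm v') := by ring
    _ ≤ 4 ^ n₂ * (2 * (4 * (B : ℤ)) ^ n₂) :=
        mul_le_mul_of_nonneg_left (by linarith) (by positivity)
    _ = 16 ^ n₂ * (2 * (B : ℤ) ^ n₂) := by
        rw [mul_pow, show (16 : ℤ) = 4 * 4 by norm_num, mul_pow]
        ring

end Pool.Agent.LibNZ69
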