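import Pool.Agent.LibNZ69.A2

set_option autoImplicit false

namespace Pool.Agent.LibNZ69

/-! Row G5 (SHORT). Two counts. -/

/-- naturals below `M` that are pairwise within `D` modulo `M` -/
theorem card_near (M D : ℕ) (K : Finset ℕ) (hK : ∀ k ∈ K, k < M)
    (h : ∀ k ∈ K, ∀ k' ∈ K, ∃ c : ℤ, |(k : ℤ) - k' - c * M| ≤ D) : K.card ≤ 2 * D + 1 := by
  rcases K.eq_empty_or_nonempty with rfl | ⟨k0, hk0⟩
  · simp
  choose! c hc using fun k hk => h k hk k0 hk0
  have h1 : K.card ≤ (Finset.Icc (-(D : ℤ)) D).card := by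
    refine Finset.card_le_card_of_injOn (fun k => (k : ℤ) - k0 - c k * M) ?_ ?_
    · intro k hk
      exact Finset.mem_coe.2 (Finset.mem_Icc.2 (abs_le.1 (hc k hk)))
    · intro k hk k' hk' he
      have he' : (k : ℤ) - k0 - c k * M = (k' : ℤ) - k0 - c k' * M := he
      have h2 : (k : ℤ) - k' = (c k - c k') * M := by linear_combination he'
      have hkM : (k : ℤ) < M := by exact_mod_cast hK k hk
      have hkM' : (k' : ℤ) < M := by exact_mod_cast hK k' hk'
      have h3 : |(c k - c k') * (M : ℤ)| < M := by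
        rw [← h2, abs_lt]
        constructor <;> omega
      have hM0 : (0 : ℤ) < M := by omega
      rw [abs_mul, abs_of_pos hM0] at h3
      have h4 : |c k - c k'| < 1 := by
        by_contra hcon
        have : (1 : ℤ) ≤ |c k - c k'| := not_lt.1 hcon
        nlinarith
      have h5 : c k - c k' = 0 := Int.abs_lt_one_iff.1 h4
      rw [h5, zero_mul] at h2
      omega
  rw [Int.card_Icc] at h1
  omega

open Classical in
/-- the moduli `q' ∈ [Q, B Q)` with `a q' v ≡ z` modulo `q`, where `q ≥ Q`, `v` is primitive and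
`a` is a unit modulo `q`: they lie in one residue class modulo `q`. -/
theorem card_moduli (B Q q : ℕ) (hQ : 1 ≤ Q) (hq : Q ≤ q) (a : ℤ) (ha : IsCoprime a (q : ℤ))
    (v z : ℤ × ℤ) (hv : IsCoprime v.1 v.2) :
    ((Finset.Ico Q (B * Q)).filter (fun q' : ℕ => (q : ℤ) ∣ a * q' * v.1 - z.1 ∧
      (q : ℤ) ∣ a * q' * v.2 - z.2)).card ≤ B := by
  have hq0 : 0 < q := by omega
  have key : ∀ x y : ℕ, ((q : ℤ) ∣ a * x * v.1 - z.1 ∧ (q : ℤ) ∣ a * x * v.2 - z.2) →
      ((q : ℤ) ∣ a * y * v.1 - z.1 ∧ (q : ℤ) ∣ a * y * v.2 - z.2) → x % q = y % q := by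
    rintro x y ⟨hx1, hx2⟩ ⟨hy1, hy2⟩
    have h1 : (q : ℤ) ∣ a * (((x : ℤ) - y) * v.1) := by
      have := dvd_sub hx1 hy1
      refine this.trans (dvd_of_eq ?_)
      ring
    have h2 : (q : ℤ) ∣ a * (((x : ℤ) - y) * v.2) := by
      have := dvd_sub hx2 hy2
      refine this.trans (dvd_of_eq ?_)
      ring
    have h1' := ha.symm.dvd_of_dvd_mul_left h1
    have h2' := ha.symm.dvd_of_dvd_mul_left h2
    obtain ⟨r, s, hrs⟩ := hv
    have h3 : (q : ℤ) ∣ (x : ℤ) - y := by
      have h4 := dvd_add (h1'.mul_left r) (h2'.mul_left s)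
      refine h4.trans (dvd_of_eq ?_)
      linear_combination ((x : ℤ) - y) * hrs
    have h5 : (y : ℤ) ≡ x [ZMOD q] := (Int.modEq_iff_dvd).2 h3
    have h6 : y ≡ x [MOD q] := (Int.natCast_modEq_iff).1 h5
    exact h6.symm
  calc _ ≤ (Finset.range B).card := by
        refine Finset.card_le_card_of_injOn (fun x => x / q) ?_ ?_
        · intro x hx
          have hx' := (Finset.mem_filter.1 (Finset.mem_coe.1 hx)).1
          rw [Finset.mem_Ico] at hx'
          refine Finset.mem_coe.2 (Finset.mem_range.2 ?_)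
          exact Nat.div_lt_of_lt_mul (lt_of_lt_of_le hx'.2 (by
            rw [mul_comm]; exact Nat.mul_le_mul_right B hq))
        · intro x hx y hy hxy
          have hx' := (Finset.mem_filter.1 (Finset.mem_coe.1 hx)).2
          have hy' := (Finset.mem_filter.1 (Finset.mem_coe.1 hy)).2
          have hm := key x y hx' hy'
          have hd : x / q = y / q := hxy
          rw [← Nat.div_add_mod x q, ← Nat.div_add_mod y q, hm, hd]
    _ = B := Finset.card_range B

end Pool.Agent.LibNZ69
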