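import Pool.Agent.LibNZ69.Defs

set_option autoImplicit false

namespace Pool.Agent.LibNZ69

/-! Row A2 (SHORT). Elementary facts on `nm` and `wdg`.
`wdg_dvd`: the identity `(z ∧ z') v = (z ∧ v) z' - (z' ∧ v) z` (up to sign) gives `q ∣ (z ∧ z') v.1`
and `q ∣ (z ∧ z') v.2`; then Bezout. `dvd_smul_sub`: if `s v.1 + t v.2 = 1` take the scalar
`s z.1 + t z.2`. -/

theorem nm_nonneg (x : ℤ × ℤ) : 0 ≤ nm x := by
  unfold nm
  exact le_max_of_le_left (abs_nonneg _)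

theorem one_le_nm (x : ℤ × ℤ) (h : x ≠ 0) : 1 ≤ nm x := by
  unfold nm
  by_cases h1 : x.1 = 0
  · have h2 : x.2 ≠ 0 := by
      intro h2
      exact h (Prod.ext h1 h2)
    exact le_max_of_le_right (Int.one_le_abs h2)
  · exact le_max_of_le_left (Int.one_le_abs h1)

theorem nm_smul (k : ℤ) (x : ℤ × ℤ) : nm (k • x) = |k| * nm x := by
  unfold nm
  rw [Prod.smul_fst, Prod.smul_snd, smul_eq_mul, smul_eq_mul, abs_mul, abs_mul,
    mul_max_of_nonneg _ _ (abs_nonneg k)]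

theorem nm_neg (x : ℤ × ℤ) : nm (-x) = nm x := by
  unfold nm
  rw [Prod.fst_neg, Prod.snd_neg, abs_neg, abs_neg]

theorem nm_add_le (x y : ℤ × ℤ) : nm (x + y) ≤ nm x + nm y := by
  unfold nm
  rw [Prod.fst_add, Prod.snd_add]
  refine max_le ?_ ?_
  · exact (abs_add_le _ _).trans (add_le_add (le_max_left _ _) (le_max_left _ _))
  · exact (abs_add_le _ _).trans (add_le_add (le_max_right _ _) (le_max_right _ _))

theorem nm_sub_le (x y : ℤ × ℤ) : nm (x - y) ≤ nm x + nm y := by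
  rw [sub_eq_add_neg]
  refine (nm_add_le _ _).trans ?_
  rw [nm_neg]

theorem abs_fst_le (x : ℤ × ℤ) : |x.1| ≤ nm x := le_max_left _ _

theorem abs_snd_le (x : ℤ × ℤ) : |x.2| ≤ nm x := le_max_right _ _

theorem mem_zs (J : ℕ) (x : ℤ × ℤ) : x ∈ zs J ↔ nm x ≤ J := by
  unfold zs nm
  rw [Finset.mem_product, Finset.mem_Icc, Finset.mem_Icc, max_le_iff, abs_le, abs_le]

theorem abs_wdg_le (x y : ℤ × ℤ) : |wdg x y| ≤ 2 * (nm x * nm y) := by
  unfold wdg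
  have h1 : |x.1 * y.2| ≤ nm x * nm y := by
    rw [abs_mul]
    exact mul_le_mul (abs_fst_le x) (abs_snd_le y) (abs_nonneg _) (nm_nonneg x)
  have h2 : |x.2 * y.1| ≤ nm x * nm y := by
    rw [abs_mul]
    exact mul_le_mul (abs_snd_le x) (abs_fst_le y) (abs_nonneg _) (nm_nonneg x)
  have h3 : |x.1 * y.2 - x.2 * y.1| ≤ |x.1 * y.2| + |x.2 * y.1| := abs_sub _ _
  linarith

theorem wdg_dvd (q : ℤ) (v z z' : ℤ × ℤ) (hv : IsCoprime v.1 v.2) (h : q ∣ wdg z v)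
    (h' : q ∣ wdg z' v) : q ∣ wdg z z' := by
  obtain ⟨s, t, hst⟩ := hv
  obtain ⟨c, hc⟩ := h
  obtain ⟨c', hc'⟩ := h'
  unfold wdg at hc hc' ⊢
  refine ⟨s * (c * z'.1 - c' * z.1) + t * (c * z'.2 - c' * z.2), ?_⟩
  have h1 : (z.1 * z'.2 - z.2 * z'.1) * v.1 = q * (c * z'.1 - c' * z.1) := by
    linear_combination z'.1 * hc - z.1 * hc'
  have h2 : (z.1 * z'.2 - z.2 * z'.1) * v.2 = q * (c * z'.2 - c' * z.2) := by
    linear_combination z'.2 * hc - z.2 * hc'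
  linear_combination s * h1 + t * h2 - (z.1 * z'.2 - z.2 * z'.1) * hst

/-- small wedge: two vectors in the same class modulo `q` and of product of norms `< q/2` are
parallel -/
theorem wdg_eq_zero (q : ℤ) (v z z' : ℤ × ℤ) (hv : IsCoprime v.1 v.2) (h : q ∣ wdg z v)
    (h' : q ∣ wdg z' v) (hs : 2 * (nm z * nm z') < q) : wdg z z' = 0 :=
  Int.eq_zero_of_abs_lt_dvd (wdg_dvd q v z z' hv h h') ((abs_wdg_le z z').trans_lt hs)

theorem parallel (x y : ℤ × ℤ) (hx : IsCoprime x.1 x.2) (h : wdg x y = 0) :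
    ∃ k : ℤ, y = k • x := by
  obtain ⟨s, t, hst⟩ := hx
  unfold wdg at h
  refine ⟨s * y.1 + t * y.2, Prod.ext ?_ ?_⟩
  · rw [Prod.smul_fst, smul_eq_mul]
    linear_combination -y.1 * hst - t * h
  · rw [Prod.smul_snd, smul_eq_mul]
    linear_combination -y.2 * hst + s * h

theorem dvd_smul_sub (q : ℤ) (v z : ℤ × ℤ) (hv : IsCoprime v.1 v.2) (h : q ∣ wdg z v) :
    ∃ k : ℤ, q ∣ z.1 - k * v.1 ∧ q ∣ z.2 - k * v.2 := by
  obtain ⟨s, t, hst⟩ := hv
  obtain ⟨c, hc⟩ := h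
  unfold wdg at hc
  refine ⟨s * z.1 + t * z.2, ⟨t * c, ?_⟩, ⟨-(s * c), ?_⟩⟩
  · linear_combination -z.1 * hst + t * hc
  · linear_combination -z.2 * hst - s * hc

/-- the subgroup of the `z` with `q ∣ z ∧ v` on a line is generated by one vector: if `z ≠ 0` lies
in it there is a generator `g` of the line part through `z`. -/
theorem line_gen (q : ℤ) (v z : ℤ × ℤ) (hz : z ≠ 0) (h : q ∣ wdg z v) :
    ∃ g : ℤ × ℤ, g ≠ 0 ∧ q ∣ wdg g v ∧ (∃ k : ℤ, z = k • g) ∧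
      ∀ z' : ℤ × ℤ, wdg z z' = 0 → q ∣ wdg z' v → ∃ k : ℤ, z' = k • g := by
  have hgcd : 0 < Int.gcd z.1 z.2 := by
    rw [Int.gcd_pos_iff]
    by_contra hcon
    push Not at hcon
    exact hz (Prod.ext hcon.1 hcon.2)
  obtain ⟨m, n, hmn, hm, hn⟩ := Int.exists_gcd_one hgcd
  obtain ⟨d, hd⟩ : ∃ d : ℤ, d = (Int.gcd z.1 z.2 : ℤ) := ⟨_, rfl⟩
  have hd0 : d ≠ 0 := by
    rw [hd]
    exact_mod_cast hgcd.ne'
  have hcop : IsCoprime m n := Int.isCoprime_iff_gcd_eq_one.mpr hmn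
  rw [← hd] at hm hn
  obtain ⟨w, hw⟩ : ∃ w : ℤ, w = wdg (m, n) v := ⟨_, rfl⟩
  have hwk : ∀ k : ℤ, wdg (k • ((m, n) : ℤ × ℤ)) v = k * w := by
    intro k
    rw [hw]
    unfold wdg
    rw [Prod.smul_fst, Prod.smul_snd, smul_eq_mul, smul_eq_mul]
    ring
  have hzd : z = d • ((m, n) : ℤ × ℤ) := by
    refine Prod.ext ?_ ?_
    · rw [Prod.smul_fst, smul_eq_mul, hm]
      ring
    · rw [Prod.smul_snd, smul_eq_mul, hn]
      ring
  -- the multipliers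
  let I : Ideal ℤ := Submodule.comap (LinearMap.mulLeft ℤ w) (Ideal.span {q})
  have hI : ∀ k : ℤ, k ∈ I ↔ q ∣ k * w := by
    intro k
    rw [Submodule.mem_comap, LinearMap.mulLeft_apply, Ideal.mem_span_singleton, mul_comm]
  obtain ⟨g0, hg0⟩ : ∃ g0, g0 = Submodule.IsPrincipal.generator I := ⟨_, rfl⟩
  have hgen : ∀ k : ℤ, q ∣ k * w ↔ g0 ∣ k := by
    intro k
    rw [← hI, hg0]
    exact Submodule.IsPrincipal.mem_iff_generator_dvd I
  have hdI : g0 ∣ d := by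
    rw [← hgen, ← hwk, ← hzd]
    exact h
  have hg00 : g0 ≠ 0 := by
    rintro h0
    rw [h0, zero_dvd_iff] at hdI
    exact hd0 hdI
  refine ⟨g0 • ((m, n) : ℤ × ℤ), ?_, ?_, ?_, ?_⟩
  · intro h0
    have h1 : d • ((m, n) : ℤ × ℤ) = 0 := by
      obtain ⟨c, hc⟩ := hdI
      rw [hc, mul_comm, mul_smul, h0, smul_zero]
    rw [← hzd] at h1
    exact hz h1
  · rw [hwk, hgen]
  · obtain ⟨c, hc⟩ := hdI
    refine ⟨c, ?_⟩
    rw [smul_smul, mul_comm c g0, ← hc]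
    exact hzd
  · intro z' hz' hq
    have h1 : wdg (m, n) z' = 0 := by
      have h2 : d * wdg (m, n) z' = 0 := by
        rw [← hz']
        unfold wdg
        rw [hm, hn]
        ring
      rcases mul_eq_zero.mp h2 with h3 | h3
      · exact absurd h3 hd0
      · exact h3
    obtain ⟨k, hk⟩ := parallel (m, n) z' hcop h1
    rw [hk, hwk, hgen] at hq
    obtain ⟨c, hc⟩ := hq
    refine ⟨c, ?_⟩
    rw [smul_smul, mul_comm c g0, ← hc]
    exact hk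

end Pool.Agent.LibNZ69
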