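import Pool.Agent.LibNZ69.F2

set_option autoImplicit false

namespace Pool.Agent.LibNZ69

open Finset

private theorem F3_symm {M H : ℕ} {y y' : ℤ × ℤ} (h : close M H y y') : close M H y' y := by
  obtain ⟨t, ht, h1, h2⟩ := h
  refine ⟨-t, ?_, ?_, ?_⟩
  · have e : nm (-t) = nm t := by
      unfold nm
      rw [Prod.fst_neg, Prod.snd_neg, abs_neg, abs_neg]
    rw [e]
    exact ht
  · have e : y'.1 - y.1 - (-t).1 = -(y.1 - y'.1 - t.1) := by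
      rw [Prod.fst_neg]
      ring
    rw [e]
    exact (dvd_neg).2 h1
  · have e : y'.2 - y.2 - (-t).2 = -(y.2 - y'.2 - t.2) := by
      rw [Prod.snd_neg]
      ring
    rw [e]
    exact (dvd_neg).2 h2

open Classical in
private theorem F3_sum {ι : Type*} (I : Finset ι) (r : ι → ι → Prop) (hr : ∀ i j, r i j → r j i)
    (a : ι → ℝ) :
    ∑ i ∈ I, ∑ j ∈ I, (if r i j then a i * a j else 0) ≤
      ∑ i ∈ I, a i ^ 2 * ((I.filter (fun j => r i j)).card : ℝ) := by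
  have h1 : ∑ i ∈ I, ∑ j ∈ I, (if r i j then a i * a j else 0) ≤
      ∑ i ∈ I, ∑ j ∈ I, ((if r i j then a i ^ 2 else 0) / 2 + (if r i j then a j ^ 2 else 0) / 2) := by
    refine Finset.sum_le_sum fun i _ => Finset.sum_le_sum fun j _ => ?_
    split_ifs
    · nlinarith [sq_nonneg (a i - a j)]
    · norm_num
  have h2 : ∑ i ∈ I, ∑ j ∈ I, (if r i j then a j ^ 2 else 0) / 2 =
      ∑ i ∈ I, ∑ j ∈ I, (if r i j then a i ^ 2 else 0) / 2 := by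
    rw [Finset.sum_comm]
    refine Finset.sum_congr rfl fun i _ => Finset.sum_congr rfl fun j _ => ?_
    have e : r j i ↔ r i j := ⟨hr j i, hr i j⟩
    simp only [e]
  refine h1.trans (le_of_eq ?_)
  simp only [Finset.sum_add_distrib]
  rw [h2, ← Finset.sum_add_distrib]
  refine Finset.sum_congr rfl fun i _ => ?_
  rw [← Finset.sum_add_distrib]
  have e : ∀ j, (if r i j then a i ^ 2 else 0) / 2 + (if r i j then a i ^ 2 else 0) / 2 =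
      if r i j then a i ^ 2 else 0 := fun j => add_halves _
  simp only [e]
  rw [← Finset.sum_filter, Finset.sum_const, nsmul_eq_mul, mul_comm]

open Classical in
/-- Row F3 (SHORT/MEDIUM). Duality. With `S k = ∑_{v ∈ V} ∑_{w ∈ W} ch M (k dt v (u w))` apply
Cauchy-Schwarz over `v` to `∑_k conj (S k) S k` and then `sieve` with the index set `R × W`,
`y (k, w) = k • u w`, `c (k, w) = conj (S k)`, `‖c‖‖c'‖ ≤ (‖c‖^2 + ‖c'‖^2)/2` and the symmetry of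
`close`: `(∑_k ‖S k‖^2)^2 ≤ card V · 4 (M/H)^2 · ρ · ∑_k ‖S k‖^2`. -/
theorem dual (M H L : ℕ) (hH : 1 ≤ H) (hL : 1 ≤ L) (hHL : 8 * (H * L) ≤ M) (hLM : L < M) {β : Type*}
    [DecidableEq β] (V : Finset (ℤ × ℤ))
    (hV : ∀ v ∈ V, 0 ≤ v.1 ∧ v.1 ≤ L ∧ 0 ≤ v.2 ∧ v.2 ≤ L) (W : Finset β) (u : β → ℤ × ℤ)
    (R : Finset ℕ) (ρ : ℝ) (hρ0 : 0 ≤ ρ)
    (hρ : ∀ k ∈ R, (((W ×ˢ (R ×ˢ W)).filter (fun p =>
      close M H ((k : ℤ) • u p.1) ((p.2.1 : ℤ) • u p.2.2))).card : ℝ) ≤ ρ) :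
    ∑ k ∈ R, ‖∑ v ∈ V, ∑ w ∈ W, ch M ((k : ℤ) * dt v (u w))‖ ^ 2 ≤
      4 * ((M : ℝ) / H) ^ 2 * V.card * ρ := by
  set S : ℕ → ℂ := fun k => ∑ v ∈ V, ∑ w ∈ W, ch M ((k : ℤ) * dt v (u w)) with hS
  set y : ℕ × β → ℤ × ℤ := fun i => (i.1 : ℤ) • u i.2 with hy
  set c : ℕ × β → ℂ := fun i => (starRingEnd ℂ) (S i.1) with hc
  have hdt : ∀ (k : ℕ) (v x : ℤ × ℤ), dt v ((k : ℤ) • x) = (k : ℤ) * dt v x := by
    intro k v x
    show v.1 * ((k : ℤ) * x.1) + v.2 * ((k : ℤ) * x.2) = (k : ℤ) * (v.1 * x.1 + v.2 * x.2)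
    ring
  have hnc : ∀ i, ‖c i‖ = ‖S i.1‖ := fun i => RCLike.norm_conj _
  have hs := sieve M H L hH hL hHL hLM (R ×ˢ W) y c V hV
  have h1 := F3_sum (R ×ˢ W) (fun i j => close M H (y i) (y j)) (fun i j h => F3_symm h)
    (fun i => ‖c i‖)
  have hSg : 0 ≤ ∑ k ∈ R, ‖S k‖ ^ 2 := Finset.sum_nonneg fun k _ => by positivity
  have h2 : ∑ i ∈ R ×ˢ W, ‖c i‖ ^ 2 * (((R ×ˢ W).filter
      (fun j => close M H (y i) (y j))).card : ℝ) ≤ ρ * ∑ k ∈ R, ‖S k‖ ^ 2 := by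
    rw [Finset.sum_product, Finset.mul_sum]
    refine Finset.sum_le_sum fun k hk => ?_
    have h3 : ∑ w ∈ W, ‖c (k, w)‖ ^ 2 * (((R ×ˢ W).filter
        (fun j => close M H (y (k, w)) (y j))).card : ℝ) =
        ‖S k‖ ^ 2 * ∑ w ∈ W, (((R ×ˢ W).filter
          (fun j => close M H (y (k, w)) (y j))).card : ℝ) := by
      rw [Finset.mul_sum]
      refine Finset.sum_congr rfl fun w _ => ?_
      rw [hnc]
    have h4 : ((W ×ˢ (R ×ˢ W)).filter (fun p =>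
        close M H ((k : ℤ) • u p.1) ((p.2.1 : ℤ) • u p.2.2))).card =
        ∑ w ∈ W, ((R ×ˢ W).filter (fun j => close M H (y (k, w)) (y j))).card := by
      rw [Finset.card_filter, Finset.sum_product]
      refine Finset.sum_congr rfl fun w _ => ?_
      rw [Finset.card_filter]
    have h5 := hρ k hk
    rw [h4, Nat.cast_sum] at h5
    rw [h3, mul_comm ρ]
    exact mul_le_mul_of_nonneg_left h5 (by positivity)
  have hMH : 0 ≤ 4 * ((M : ℝ) / H) ^ 2 := by positivity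
  have h6 := hs.trans (mul_le_mul_of_nonneg_left (h1.trans h2) hMH)
  have h7 : ∑ v ∈ V, ∑ i ∈ R ×ˢ W, c i * ch M (dt v (y i)) = ((∑ k ∈ R, ‖S k‖ ^ 2 : ℝ) : ℂ) := by
    have e1 : ∀ v ∈ V, ∑ i ∈ R ×ˢ W, c i * ch M (dt v (y i)) =
        ∑ k ∈ R, (starRingEnd ℂ) (S k) * ∑ w ∈ W, ch M ((k : ℤ) * dt v (u w)) := by
      intro v _
      rw [Finset.sum_product]
      refine Finset.sum_congr rfl fun k _ => ?_
      rw [Finset.mul_sum]
      refine Finset.sum_congr rfl fun w _ => ?_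
      show (starRingEnd ℂ) (S k) * ch M (dt v ((k : ℤ) • u w)) = _
      rw [hdt]
    rw [Finset.sum_congr rfl e1, Finset.sum_comm, Complex.ofReal_sum]
    refine Finset.sum_congr rfl fun k _ => ?_
    rw [← Finset.mul_sum]
    show (starRingEnd ℂ) (S k) * S k = _
    rw [Complex.conj_mul', Complex.ofReal_pow]
  have h8 : (∑ k ∈ R, ‖S k‖ ^ 2) ^ 2 ≤ V.card * ∑ v ∈ V,
      ‖∑ i ∈ R ×ˢ W, c i * ch M (dt v (y i))‖ ^ 2 := by
    have e1 : ∑ k ∈ R, ‖S k‖ ^ 2 = ‖∑ v ∈ V, ∑ i ∈ R ×ˢ W, c i * ch M (dt v (y i))‖ := by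
      rw [h7, Complex.norm_of_nonneg hSg]
    have e2 := norm_sum_le V (fun v => ∑ i ∈ R ×ˢ W, c i * ch M (dt v (y i)))
    rw [← e1] at e2
    refine (pow_le_pow_left₀ hSg e2 2).trans ?_
    exact sq_sum_le_card_mul_sum_sq
  have h9 : (∑ k ∈ R, ‖S k‖ ^ 2) * (∑ k ∈ R, ‖S k‖ ^ 2) ≤
      (4 * ((M : ℝ) / H) ^ 2 * V.card * ρ) * ∑ k ∈ R, ‖S k‖ ^ 2 := by
    have e1 := mul_le_mul_of_nonneg_left h6 (Nat.cast_nonneg (α := ℝ) V.card)
    have e2 := h8.trans e1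
    calc (∑ k ∈ R, ‖S k‖ ^ 2) * (∑ k ∈ R, ‖S k‖ ^ 2) = (∑ k ∈ R, ‖S k‖ ^ 2) ^ 2 := by ring
      _ ≤ V.card * (4 * ((M : ℝ) / H) ^ 2 * (ρ * ∑ k ∈ R, ‖S k‖ ^ 2)) := e2
      _ = _ := by ring
  show ∑ k ∈ R, ‖S k‖ ^ 2 ≤ _
  rcases hSg.eq_or_lt with h0 | h0
  · rw [← h0]
    positivity
  · exact le_of_mul_le_mul_right h9 h0

end Pool.Agent.LibNZ69
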