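import Pool.Agent.LibNZ69.Defs

set_option autoImplicit false

namespace Pool.Agent.LibNZ69

/-! Row D (SHORT/MEDIUM). Dirichlet's theorem (`Real.exists_rat_abs_sub_le_and_den_le` with
`n = Nat.sqrt M`) and the class of a frequency. -/

theorem dirichlet (M : ℕ) (hM : 0 < M) (k : ℕ) : ∃ (q : ℕ) (a : ℤ), 1 ≤ q ∧ q ^ 2 ≤ M ∧
    IsCoprime a (q : ℤ) ∧ ((q : ℤ) * k - a * M) ^ 2 ≤ M := by
  have hn : 0 < Nat.sqrt M := Nat.sqrt_pos.2 hM
  obtain ⟨x, hx1, hx2⟩ := Real.exists_rat_abs_sub_le_and_den_le ((k : ℝ) / M) hn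
  obtain ⟨n, hndef⟩ : ∃ n, n = Nat.sqrt M := ⟨_, rfl⟩
  rw [← hndef] at hx1 hx2 hn
  have hn1 : n * n ≤ M := by rw [hndef]; exact Nat.sqrt_le M
  have hn2 : M < (n + 1) * (n + 1) := by rw [hndef]; exact Nat.lt_succ_sqrt M
  have hq0 : 0 < x.den := x.den_pos
  refine ⟨x.den, x.num, hq0, ?_, ?_, ?_⟩
  · calc x.den ^ 2 = x.den * x.den := sq _
      _ ≤ n * n := Nat.mul_le_mul hx2 hx2
      _ ≤ M := hn1
  · rw [Int.isCoprime_iff_gcd_eq_one]
    exact x.reduced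
  · have hq : (0 : ℝ) < x.den := by exact_mod_cast hq0
    have hMr : (0 : ℝ) < M := by exact_mod_cast hM
    have hnr : (0 : ℝ) < (n : ℝ) + 1 := by positivity
    have h1 : ((k : ℝ) / M - x) = ((x.den : ℝ) * k - x.num * M) / (M * x.den) := by
      have h2 : (x : ℝ) = x.num / x.den := by
        exact_mod_cast (Rat.num_div_den x).symm
      rw [h2]
      field_simp
    rw [h1, abs_div, abs_of_pos (mul_pos hMr hq), div_le_div_iff₀ (mul_pos hMr hq)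
      (mul_pos hnr hq), one_mul, ← mul_assoc] at hx1
    have h3 : |(x.den : ℝ) * k - x.num * M| * (n + 1) ≤ M := le_of_mul_le_mul_right hx1 hq
    have h4 : |(x.den : ℤ) * k - x.num * M| * (n + 1) ≤ M := by exact_mod_cast h3
    have h5 : 0 ≤ |(x.den : ℤ) * k - x.num * M| := abs_nonneg _
    rw [← sq_abs]
    generalize |(x.den : ℤ) * k - x.num * M| = r at h4 h5
    have h6 : (M : ℤ) < ((n : ℤ) + 1) * (n + 1) := by exact_mod_cast hn2
    by_contra h7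
    have h7' : (M : ℤ) < r ^ 2 := not_le.1 h7
    have hn0 : (0 : ℤ) < (n : ℤ) + 1 := by positivity
    have hM0 : (0 : ℤ) < M := by exact_mod_cast hM
    have h8 : (r * (n + 1)) ^ 2 ≤ (M : ℤ) ^ 2 := pow_le_pow_left₀ (by positivity) h4 2
    have h9 : (M : ℤ) * M < r ^ 2 * (((n : ℤ) + 1) * (n + 1)) :=
      mul_lt_mul'' h7' h6 hM0.le hM0.le
    nlinarith

/-- the class: `i` with `B^i ≤ q < B^(i+1)`; `j = 0` if `|r| < B q`, else `j` with
`B^j q ≤ |r| < B^(j+1) q`; then `B^(2i+j) ≤ q |r| ≤ M` or `≤ q² ≤ M`, and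
`B^(i+j) ≤ max q |r|`. -/
theorem exists_class (M B : ℕ) (hM : 0 < M) (hB : 2 ≤ B) (k : ℕ) :
    ∃ (i j q : ℕ) (a : ℤ), Fr M B i j k q a ∧ B ^ (2 * i + j) ≤ M ∧ B ^ (2 * (i + j)) ≤ M := by
  obtain ⟨q, a, hq1, hq2, hcop, hr⟩ := dirichlet M hM k
  have hq0 : q ≠ 0 := by omega
  have hi1 : B ^ Nat.log B q ≤ q := Nat.pow_log_le_self B hq0
  have hi2 : q < B ^ (Nat.log B q + 1) := Nat.lt_pow_succ_log_self (by omega) q
  generalize Nat.log B q = i at hi1 hi2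
  obtain ⟨r, hrdef⟩ : ∃ r : ℕ, r = ((q : ℤ) * k - a * M).natAbs := ⟨_, rfl⟩
  have hrz : (r : ℤ) = |(q : ℤ) * k - a * M| := by rw [hrdef, Int.natCast_natAbs]
  have hr2 : r ^ 2 ≤ M := by
    have h1 : (r : ℤ) ^ 2 ≤ M := by rw [hrz, sq_abs]; exact hr
    exact_mod_cast h1
  have hii : B ^ (2 * i) ≤ M := by
    calc B ^ (2 * i) = (B ^ i) ^ 2 := by rw [mul_comm, pow_mul]
      _ ≤ q ^ 2 := Nat.pow_le_pow_left hi1 2
      _ ≤ M := hq2
  by_cases hc : r < B * q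
  · refine ⟨i, 0, q, a, ⟨hcop, hi1, hi2, ?_, Or.inl rfl⟩, hii, hii⟩
    rw [← hrz, zero_add, pow_one]
    exact_mod_cast hc
  · have hc' : B * q ≤ r := not_lt.1 hc
    have hd0 : r / q ≠ 0 := by
      have h1 : B ≤ r / q := (Nat.le_div_iff_mul_le hq1).2 hc'
      omega
    have hj1 : B ^ Nat.log B (r / q) ≤ r / q := Nat.pow_log_le_self B hd0
    have hj2 : r / q < B ^ (Nat.log B (r / q) + 1) := Nat.lt_pow_succ_log_self (by omega) _
    generalize Nat.log B (r / q) = j at hj1 hj2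
    have hj3 : B ^ j * q ≤ r := (Nat.le_div_iff_mul_le hq1).1 hj1
    have hj4 : r < B ^ (j + 1) * q := (Nat.div_lt_iff_lt_mul hq1).1 hj2
    have hij : B ^ i * B ^ j ≤ r := by
      calc B ^ i * B ^ j ≤ q * B ^ j := Nat.mul_le_mul_right _ hi1
        _ = B ^ j * q := mul_comm _ _
        _ ≤ r := hj3
    refine ⟨i, j, q, a, ⟨hcop, hi1, hi2, ?_, Or.inr ?_⟩, ?_, ?_⟩
    · rw [← hrz]
      exact_mod_cast hj4
    · rw [← hrz]
      exact_mod_cast hj3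
    · have h1 : B ^ (2 * i + j) ≤ q * r := by
        calc B ^ (2 * i + j) = B ^ i * (B ^ i * B ^ j) := by ring
          _ ≤ q * r := Nat.mul_le_mul hi1 hij
      refine h1.trans ?_
      nlinarith [sq_nonneg ((q : ℤ) - r)]
    · calc B ^ (2 * (i + j)) = (B ^ i * B ^ j) ^ 2 := by ring
        _ ≤ r ^ 2 := Nat.pow_le_pow_left hij 2
        _ ≤ M := hr2

end Pool.Agent.LibNZ69
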