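import Pool.Agent.LibNZ69.F0

set_option autoImplicit false

namespace Pool.Agent.LibNZ69

open Finset

private theorem F1_conj (M : ℕ) (x y : ℤ) :
    ch M x * (starRingEnd ℂ) (ch M y) = ch M (x - y) := by
  unfold ch
  rw [← Complex.exp_conj, ← Complex.exp_add]
  congr 1
  simp only [map_div₀, map_mul, Complex.conj_I, Complex.conj_ofReal, map_ofNat, map_intCast,
    map_natCast]
  push_cast
  ring

/-- Row F1 (SHORT/MEDIUM). Plancherel + Cauchy-Schwarz: the number of the values. -/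
theorem plancherel (M : ℕ) (hM : 0 < M) {ι : Type*} [DecidableEq ι] (Ω : Finset ι) (f : ι → ℤ)
    (hf : ∀ w ∈ Ω, 0 ≤ f w ∧ f w < M) :
    (M : ℝ) * (Ω.card : ℝ) ^ 2 ≤
      ((Ω.image f).card : ℝ) * ∑ k ∈ range M, ‖∑ w ∈ Ω, ch M (k * f w)‖ ^ 2 := by
  classical
  obtain ⟨I, hI⟩ : ∃ I, I = Ω.image f := ⟨_, rfl⟩
  obtain ⟨r, hr⟩ : ∃ r : ℤ → ℝ, ∀ v, r v = ((Ω.filter (fun w => f w = v)).card : ℝ) :=
    ⟨_, fun _ => rfl⟩
  have hS : ∀ k : ℕ, ∑ w ∈ Ω, ch M (k * f w) = ∑ v ∈ I, (r v : ℂ) * ch M (k * v) := by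
    intro k
    rw [← Finset.sum_fiberwise_of_maps_to (g := f) (t := I)
      (fun w hw => by rw [hI]; exact mem_image_of_mem f hw)]
    refine sum_congr rfl fun v _ => ?_
    have h1 : ∀ w ∈ Ω.filter (fun w => f w = v), ch M (k * f w) = ch M (k * v) := by
      intro w hw
      rw [(mem_filter.1 hw).2]
    rw [sum_congr rfl h1, sum_const, nsmul_eq_mul, hr, Complex.ofReal_natCast]
  have hcard : (Ω.card : ℝ) = ∑ v ∈ I, r v := by
    have h1 := Finset.card_eq_sum_card_image f Ω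
    rw [← hI] at h1
    rw [h1, Nat.cast_sum]
    exact sum_congr rfl fun v _ => (hr v).symm
  have hbd : ∀ v ∈ I, 0 ≤ v ∧ v < (M : ℤ) := by
    intro v hv
    rw [hI] at hv
    obtain ⟨w, hw, rfl⟩ := mem_image.1 hv
    exact hf w hw
  have hdv : ∀ v ∈ I, ∀ v' ∈ I, (M : ℤ) ∣ v - v' → v' = v := by
    intro v hv v' hv' h
    have h1 := hbd v hv
    have h2 := hbd v' hv'
    have h3 : v - v' = 0 := Int.eq_zero_of_abs_lt_dvd h (by rw [abs_lt]; omega)
    omega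
  have hP : ∑ k ∈ range M, ‖∑ w ∈ Ω, ch M (k * f w)‖ ^ 2 = M * ∑ v ∈ I, r v ^ 2 := by
    have h : ((∑ k ∈ range M, ‖∑ w ∈ Ω, ch M (k * f w)‖ ^ 2 : ℝ) : ℂ) =
        ((M * ∑ v ∈ I, r v ^ 2 : ℝ) : ℂ) := by
      push_cast
      have h1 : ∀ k ∈ range M, ((‖∑ w ∈ Ω, ch M (k * f w)‖ : ℝ) : ℂ) ^ 2 =
          ∑ v ∈ I, ∑ v' ∈ I, ((r v : ℂ) * r v') * ch M (k * (v - v')) := by
        intro k _
        rw [← Complex.mul_conj', hS, map_sum, Finset.sum_mul_sum]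
        refine sum_congr rfl fun v _ => sum_congr rfl fun v' _ => ?_
        rw [map_mul, Complex.conj_ofReal]
        have h2 := F1_conj M (k * v) (k * v')
        rw [← mul_sub] at h2
        rw [← h2]
        ring
      rw [sum_congr rfl h1, sum_comm, mul_sum]
      refine sum_congr rfl fun v hv => ?_
      rw [sum_comm, sum_eq_single v]
      · rw [← mul_sum, ch_orth M hM, sub_self, if_pos (dvd_zero _)]
        ring
      · intro v' hv' hne
        rw [← mul_sum, ch_orth M hM, if_neg (fun h => hne (hdv v hv v' hv' h)), mul_zero]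
      · intro h
        exact absurd hv h
    exact_mod_cast h
  rw [hP, ← hI, hcard]
  have hcs : (∑ v ∈ I, r v) ^ 2 ≤ (I.card : ℝ) * ∑ v ∈ I, r v ^ 2 := sq_sum_le_card_mul_sum_sq
  have hM0 : (0 : ℝ) ≤ M := Nat.cast_nonneg _
  calc (M : ℝ) * (∑ v ∈ I, r v) ^ 2 ≤ M * ((I.card : ℝ) * ∑ v ∈ I, r v ^ 2) :=
        mul_le_mul_of_nonneg_left hcs hM0
    _ = (I.card : ℝ) * (M * ∑ v ∈ I, r v ^ 2) := by ring

end Pool.Agent.LibNZ69
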