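import Pool.Agent.LibNZ69.Defs

set_option autoImplicit false

namespace Pool.Agent.LibNZ69

/-! Row U (SHORT). The contracting cone `neg`: `y = ± (s, -t)` with `s > t > 0`.
(1) if `y` is not in `neg` then `gl a y = (y.2, y.1 + a y.2)` has two coordinates of the same (weak)
sign for every `a ≥ 1`, and vectors with two coordinates of the same weak sign stay so.
(2) if `y` and `gl a y` are both in `neg`, `y = (s, -t)`, then `a < s / t < a + 1`, so `a` is
determined by `y`; if `act b y` is in `neg` then by (1) all intermediate vectors are in `neg`, and the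
letters are determined one after the other (from the last one). -/

private lemma U_step (y : ℤ × ℤ) (h : ¬ neg y) (a : ℕ) (ha : 1 ≤ a) :
    (0 ≤ (gl a y).1 ∧ 0 ≤ (gl a y).2) ∨ ((gl a y).1 ≤ 0 ∧ (gl a y).2 ≤ 0) := by
  obtain ⟨p, r⟩ := y
  have ha' : (1 : ℤ) ≤ (a : ℤ) := by exact_mod_cast ha
  have h' : ¬ (p * r < 0 ∧ |r| < |p|) := h
  show (0 ≤ r ∧ 0 ≤ p + a * r) ∨ (r ≤ 0 ∧ p + a * r ≤ 0)
  rcases lt_trichotomy r 0 with hr | hr | hr
  · right
    refine ⟨hr.le, ?_⟩
    have hle : p ≤ -r := by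
      by_contra hcon
      push Not at hcon
      apply h'
      constructor
      · nlinarith
      · rw [abs_of_neg hr, abs_of_pos (by linarith)]
        exact hcon
    nlinarith
  · subst hr
    rcases le_total 0 p with hp | hp
    · left
      exact ⟨le_refl _, by simpa using hp⟩
    · right
      exact ⟨le_refl _, by simpa using hp⟩
  · left
    refine ⟨hr.le, ?_⟩
    have hle : -p ≤ r := by
      by_contra hcon
      push Not at hcon
      apply h'
      constructor
      · nlinarith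
      · rw [abs_of_pos hr, abs_of_neg (by linarith)]
        exact hcon
    nlinarith

private lemma U_keep (y : ℤ × ℤ) (h : (0 ≤ y.1 ∧ 0 ≤ y.2) ∨ (y.1 ≤ 0 ∧ y.2 ≤ 0)) (a : ℕ) :
    (0 ≤ (gl a y).1 ∧ 0 ≤ (gl a y).2) ∨ ((gl a y).1 ≤ 0 ∧ (gl a y).2 ≤ 0) := by
  obtain ⟨p, r⟩ := y
  have ha' : (0 : ℤ) ≤ (a : ℤ) := by positivity
  have h' : (0 ≤ p ∧ 0 ≤ r) ∨ (p ≤ 0 ∧ r ≤ 0) := h
  show (0 ≤ r ∧ 0 ≤ p + a * r) ∨ (r ≤ 0 ∧ p + a * r ≤ 0)
  rcases h' with ⟨h1, h2⟩ | ⟨h1, h2⟩
  · left
    exact ⟨h2, by nlinarith⟩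
  · right
    exact ⟨h2, by nlinarith⟩

theorem same_sign_of_not_neg (y : ℤ × ℤ) (h : ¬ neg y) (b : List ℕ) (hb : b ≠ [])
    (hd : ∀ a ∈ b, 1 ≤ a) :
    (0 ≤ (act b y).1 ∧ 0 ≤ (act b y).2) ∨ ((act b y).1 ≤ 0 ∧ (act b y).2 ≤ 0) := by
  induction b with
  | nil => exact absurd rfl hb
  | cons a w ih =>
    rcases w with _ | ⟨c, w⟩
    · exact U_step y h a (hd a (by simp))
    · have h1 := ih (by simp) (fun x hx => hd x (List.mem_cons_of_mem _ hx))
      exact U_keep _ h1 a

private lemma U_not_neg_of_same (y : ℤ × ℤ) (h : (0 ≤ y.1 ∧ 0 ≤ y.2) ∨ (y.1 ≤ 0 ∧ y.2 ≤ 0)) :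
    ¬ neg y := by
  rintro ⟨h1, -⟩
  rcases h with ⟨h2, h3⟩ | ⟨h2, h3⟩
  · have := mul_nonneg h2 h3
    linarith
  · have := mul_nonneg_of_nonpos_of_nonpos h2 h3
    linarith

private lemma U_back (y : ℤ × ℤ) (b : List ℕ) (hd : ∀ a ∈ b, 1 ≤ a) (h : neg (act b y)) :
    neg y := by
  by_contra hcon
  by_cases hb : b = []
  · subst hb
    exact hcon h
  · exact U_not_neg_of_same _ (same_sign_of_not_neg y hcon b hb hd) h

private lemma U_letter_le (y : ℤ × ℤ) (a c : ℕ) (h : neg y) (h1 : neg (gl a y))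
    (h2 : neg (gl c y)) : a ≤ c := by
  by_contra hcon
  push Not at hcon
  obtain ⟨p, r⟩ := y
  obtain ⟨h0, h0'⟩ : p * r < 0 ∧ |r| < |p| := h
  obtain ⟨h3, h3'⟩ : r * (p + a * r) < 0 ∧ |p + a * r| < |r| := h1
  obtain ⟨h4, h4'⟩ : r * (p + c * r) < 0 ∧ |p + c * r| < |r| := h2
  have hac : (c : ℤ) + 1 ≤ a := by exact_mod_cast hcon
  rcases lt_trichotomy r 0 with hr | hr | hr
  · have h5 : 0 < p + a * r := by
      by_contra hc
      push Not at hc
      have := mul_nonneg_of_nonpos_of_nonpos hr.le hc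
      linarith
    have h6 : p + c * r < -r := by
      have := (abs_lt.1 h4').2
      rwa [abs_of_neg hr] at this
    nlinarith
  · subst hr
    simp at h0
  · have h5 : p + a * r < 0 := by
      by_contra hc
      push Not at hc
      have := mul_nonneg hr.le hc
      linarith
    have h6 : -r < p + c * r := by
      have := (abs_lt.1 h4').1
      rwa [abs_of_pos hr] at this
    nlinarith

private lemma U_act_append (u w : List ℕ) (v : ℤ × ℤ) : act (u ++ w) v = act u (act w v) := by
  induction u with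
  | nil => rfl
  | cons a u ih => simp only [List.cons_append, act, ih]

theorem neg_unique (y : ℤ × ℤ) (b b' : List ℕ) (hl : b.length = b'.length)
    (hd : ∀ a ∈ b, 1 ≤ a) (hd' : ∀ a ∈ b', 1 ≤ a) (h : neg (act b y)) (h' : neg (act b' y)) :
    b = b' := by
  induction b using List.reverseRecOn generalizing b' y with
  | nil =>
    simp only [List.length_nil] at hl
    exact (List.length_eq_zero_iff.1 hl.symm).symm
  | append_singleton b a ih =>
    rcases List.eq_nil_or_concat b' with hb | ⟨c', c, hb⟩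
    · subst hb
      simp at hl
    · subst hb
      rw [List.concat_eq_append] at hl hd' h' ⊢
      rw [U_act_append] at h h'
      have hdb : ∀ x ∈ b, 1 ≤ x := fun x hx => hd x (by simp [hx])
      have hdc : ∀ x ∈ c', 1 ≤ x := fun x hx => hd' x (by simp [hx])
      have h1 : neg (act [a] y) := U_back _ b hdb h
      have h2 : neg (act [c] y) := U_back _ c' hdc h'
      have h3 : neg y := U_back y [a] (fun x hx => hd x (by simp at hx; simp [hx])) h1
      have hac : a = c := le_antisymm (U_letter_le y a c h3 h1 h2) (U_letter_le y c a h3 h2 h1)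
      subst hac
      have hlen : b.length = c'.length := by
        simp at hl
        exact hl
      rw [ih (act [a] y) c' hlen hdb hdc h h']

end Pool.Agent.LibNZ69
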