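import Pool.Agent.LibNZ69.A1
import Pool.Agent.LibNZ69.A2
import Pool.Agent.LibNZ69.N

set_option autoImplicit false

namespace Pool.Agent.LibNZ69

/-! Row W (MEDIUM). Words of blocks. Inductions on `n`, using rows A1, A2, N. -/

private theorem W_mem_zero {S : Finset (List ℕ)} {w : List ℕ} : w ∈ wd S 0 ↔ w = [] := by
  simp [wd]

private theorem W_mem_succ {S : Finset (List ℕ)} {n : ℕ} {w : List ℕ} :
    w ∈ wd S (n + 1) ↔ ∃ b ∈ S, ∃ u ∈ wd S n, b ++ u = w := by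
  simp only [wd, Finset.mem_image₂]

theorem wd_len {S : Finset (List ℕ)} {l B : ℕ} (hE : Ens S l B) {n : ℕ} {w : List ℕ}
    (hw : w ∈ wd S n) : w.length = n * l := by
  induction n generalizing w with
  | zero =>
    rw [W_mem_zero] at hw
    subst hw
    simp
  | succ n ih =>
    rw [W_mem_succ] at hw
    obtain ⟨b, hb, u, hu, rfl⟩ := hw
    rw [List.length_append, hE.len b hb, ih hu]
    ring

theorem wd_dig {S : Finset (List ℕ)} {l B : ℕ} (hE : Ens S l B) {n : ℕ} {w : List ℕ}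
    (hw : w ∈ wd S n) : ∀ a ∈ w, 1 ≤ a ∧ a ≤ 3 := by
  induction n generalizing w with
  | zero =>
    rw [W_mem_zero] at hw
    subst hw
    simp
  | succ n ih =>
    rw [W_mem_succ] at hw
    obtain ⟨b, hb, u, hu, rfl⟩ := hw
    intro a ha
    rw [List.mem_append] at ha
    rcases ha with ha | ha
    · exact hE.dig b hb a ha
    · exact ih hu a ha

theorem wd_one (S : Finset (List ℕ)) : wd S 1 = S := by
  ext w
  rw [W_mem_succ]
  constructor
  · rintro ⟨b, hb, u, hu, rfl⟩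
    rw [W_mem_zero] at hu
    subst hu
    simpa using hb
  · intro hw
    exact ⟨w, hw, [], W_mem_zero.mpr rfl, by simp⟩

theorem wd_append {S : Finset (List ℕ)} {m n : ℕ} {u w : List ℕ} (hu : u ∈ wd S m)
    (hw : w ∈ wd S n) : u ++ w ∈ wd S (m + n) := by
  induction m generalizing u with
  | zero =>
    rw [W_mem_zero] at hu
    subst hu
    simpa using hw
  | succ m ih =>
    rw [W_mem_succ] at hu
    obtain ⟨b, hb, x, hx, rfl⟩ := hu
    have h1 : m + 1 + n = (m + n) + 1 := by ring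
    rw [h1, W_mem_succ]
    exact ⟨b, hb, x ++ w, ih hx, by simp⟩

private theorem W_split_ex {S : Finset (List ℕ)} {m n : ℕ} {w : List ℕ}
    (hw : w ∈ wd S (m + n)) : ∃ u ∈ wd S m, ∃ x ∈ wd S n, u ++ x = w := by
  induction m generalizing w with
  | zero =>
    refine ⟨[], W_mem_zero.mpr rfl, w, ?_, by simp⟩
    simpa using hw
  | succ m ih =>
    have h1 : m + 1 + n = (m + n) + 1 := by ring
    rw [h1, W_mem_succ] at hw
    obtain ⟨b, hb, y, hy, rfl⟩ := hw
    obtain ⟨u, hu, x, hx, rfl⟩ := ih hy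
    exact ⟨b ++ u, W_mem_succ.mpr ⟨b, hb, u, hu, rfl⟩, x, hx, by simp⟩

theorem wd_split {S : Finset (List ℕ)} {l B : ℕ} (hE : Ens S l B) {m n : ℕ} {w : List ℕ}
    (hw : w ∈ wd S (m + n)) :
    w.take (m * l) ∈ wd S m ∧ w.drop (m * l) ∈ wd S n ∧ w.take (m * l) ++ w.drop (m * l) = w := by
  obtain ⟨u, hu, x, hx, rfl⟩ := W_split_ex hw
  have hl : u.length = m * l := wd_len hE hu
  rw [← hl]
  simp only [List.take_left, List.drop_left]
  exact ⟨hu, hx, trivial⟩

private theorem W_image {S : Finset (List ℕ)} (m n : ℕ) :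
    wd S (m + n) = Finset.image (fun p : List ℕ × List ℕ => p.1 ++ p.2) (wd S m ×ˢ wd S n) := by
  ext w
  simp only [Finset.mem_image, Finset.mem_product, Prod.exists]
  constructor
  · intro hw
    obtain ⟨u, hu, x, hx, h⟩ := W_split_ex hw
    exact ⟨u, x, ⟨hu, hx⟩, h⟩
  · rintro ⟨u, x, ⟨hu, hx⟩, rfl⟩
    exact wd_append hu hx

private theorem W_inj {S : Finset (List ℕ)} {l B : ℕ} (hE : Ens S l B) (m n : ℕ) :
    Set.InjOn (fun p : List ℕ × List ℕ => p.1 ++ p.2)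
      ((wd S m ×ˢ wd S n : Finset (List ℕ × List ℕ)) : Set (List ℕ × List ℕ)) := by
  rintro ⟨u, x⟩ h ⟨u', x'⟩ h' he
  simp only [Finset.coe_product, Set.mem_prod, Finset.mem_coe] at h h'
  have h1 : u.length = u'.length := by rw [wd_len hE h.1, wd_len hE h'.1]
  have h2 : u ++ x = u' ++ x' := he
  obtain ⟨h3, h4⟩ := List.append_inj h2 h1
  rw [h3, h4]

/-- sums over words split -/
theorem wd_sum {S : Finset (List ℕ)} {l B : ℕ} (hE : Ens S l B) {R : Type*} [AddCommMonoid R]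
    (m n : ℕ) (f : List ℕ → R) :
    ∑ w ∈ wd S (m + n), f w = ∑ u ∈ wd S m, ∑ w ∈ wd S n, f (u ++ w) := by
  rw [W_image m n, Finset.sum_image (W_inj hE m n), Finset.sum_product]

theorem wd_card {S : Finset (List ℕ)} {l B : ℕ} (hE : Ens S l B) (n : ℕ) :
    (wd S n).card = S.card ^ n := by
  induction n with
  | zero => simp [wd]
  | succ n ih =>
    have h1 : n + 1 = 1 + n := by ring
    rw [h1, W_image 1 n, Finset.card_image_of_injOn (W_inj hE 1 n), Finset.card_product, wd_one,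
      ih]
    ring

theorem wd_card_le {S : Finset (List ℕ)} {l B : ℕ} (hE : Ens S l B) (n : ℕ) :
    ((wd S n).card : ℝ) ≤ ((B : ℝ) ^ n) ^ (7 / 5 : ℝ) := by
  rw [wd_card hE n]
  have hB : (0 : ℝ) ≤ (B : ℝ) := Nat.cast_nonneg B
  have h1 : ((B : ℝ) ^ n) ^ (7 / 5 : ℝ) = ((B : ℝ) ^ (7 / 5 : ℝ)) ^ n := by
    rw [← Real.rpow_natCast, ← Real.rpow_mul hB, ← Real.rpow_natCast, ← Real.rpow_mul hB, mul_comm]
  rw [h1]
  push_cast
  exact pow_le_pow_left₀ (Nat.cast_nonneg _) hE.cardle n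

theorem nm_act_wd_le {S : Finset (List ℕ)} {l B : ℕ} (hE : Ens S l B) {n : ℕ} {w : List ℕ}
    (hw : w ∈ wd S n) (v : ℤ × ℤ) : nm (act w v) ≤ (4 * B) ^ n * nm v := by
  induction n generalizing w with
  | zero =>
    rw [W_mem_zero] at hw
    subst hw
    simp [act]
  | succ n ih =>
    rw [W_mem_succ] at hw
    obtain ⟨b, hb, u, hu, rfl⟩ := hw
    rw [act_append]
    have h1 := nm_act_le hE hb (act u v)
    have h2 := ih hu
    have h3 : (0 : ℤ) ≤ 4 * (B : ℤ) := by positivity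
    calc nm (act b (act u v)) ≤ 4 * B * nm (act u v) := h1
      _ ≤ 4 * B * ((4 * B) ^ n * nm v) := mul_le_mul_of_nonneg_left h2 h3
      _ = (4 * B) ^ (n + 1) * nm v := by ring

theorem nm_le_act_wd {S : Finset (List ℕ)} {l B : ℕ} (hE : Ens S l B) {n : ℕ} {w : List ℕ}
    (hw : w ∈ wd S n) (v : ℤ × ℤ) : nm v ≤ (4 * B) ^ n * nm (act w v) := by
  induction n generalizing w with
  | zero =>
    rw [W_mem_zero] at hw
    subst hw
    simp [act]
  | succ n ih =>
    rw [W_mem_succ] at hw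
    obtain ⟨b, hb, u, hu, rfl⟩ := hw
    rw [act_append]
    have h1 := nm_le_act hE hb (act u v)
    have h2 := ih hu
    have h3 : (0 : ℤ) ≤ (4 * (B : ℤ)) ^ n := by positivity
    calc nm v ≤ (4 * B) ^ n * nm (act u v) := h2
      _ ≤ (4 * B) ^ n * (4 * B * nm (act b (act u v))) := mul_le_mul_of_nonneg_left h1 h3
      _ = (4 * B) ^ (n + 1) * nm (act b (act u v)) := by ring

theorem act_pos_wd {S : Finset (List ℕ)} {l B : ℕ} (hE : Ens S l B) {n : ℕ} {w : List ℕ}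
    (hw : w ∈ wd S n) (v : ℤ × ℤ) (h1 : 0 ≤ v.1) (h2 : 0 ≤ v.2) :
    0 ≤ (act w v).1 ∧ 0 ≤ (act w v).2 ∧ B ^ n * nm v ≤ 4 ^ n * nm (act w v) := by
  induction n generalizing w with
  | zero =>
    rw [W_mem_zero] at hw
    subst hw
    refine ⟨h1, h2, ?_⟩
    simp [act]
  | succ n ih =>
    rw [W_mem_succ] at hw
    obtain ⟨b, hb, u, hu, rfl⟩ := hw
    rw [act_append]
    obtain ⟨h3, h4, h5⟩ := ih hu
    obtain ⟨h6, h7, h8⟩ := act_pos hE hb (act u v) h3 h4
    refine ⟨h6, h7, ?_⟩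
    have h9 : (0 : ℤ) ≤ (B : ℤ) := by positivity
    have h10 : (0 : ℤ) ≤ (4 : ℤ) ^ n := by positivity
    calc (B : ℤ) ^ (n + 1) * nm v = B * (B ^ n * nm v) := by ring
      _ ≤ B * (4 ^ n * nm (act u v)) := mul_le_mul_of_nonneg_left h5 h9
      _ = 4 ^ n * (B * nm (act u v)) := by ring
      _ ≤ 4 ^ n * (4 * nm (act b (act u v))) := mul_le_mul_of_nonneg_left h8 h10
      _ = 4 ^ (n + 1) * nm (act b (act u v)) := by ring

/-- the same for vectors with two coordinates of the same weak sign -/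
theorem act_same_sign_wd {S : Finset (List ℕ)} {l B : ℕ} (hE : Ens S l B) {n : ℕ} {w : List ℕ}
    (hw : w ∈ wd S n) (v : ℤ × ℤ) (h : (0 ≤ v.1 ∧ 0 ≤ v.2) ∨ (v.1 ≤ 0 ∧ v.2 ≤ 0)) :
    B ^ n * nm v ≤ 4 ^ n * nm (act w v) := by
  rcases h with h | h
  · exact (act_pos_wd hE hw v h.1 h.2).2.2
  · have h1 : 0 ≤ (-v).1 := by
      rw [Prod.fst_neg]
      linarith [h.1]
    have h2 : 0 ≤ (-v).2 := by
      rw [Prod.snd_neg]
      linarith [h.2]
    have h3 := (act_pos_wd hE hw (-v) h1 h2).2.2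
    rwa [act_neg, nm_neg, nm_neg] at h3

private theorem W_nm12 : nm (1, 2) = 2 := by
  simp [nm]

theorem nm_vec_le {S : Finset (List ℕ)} {l B : ℕ} (hE : Ens S l B) {n : ℕ} {w : List ℕ}
    (hw : w ∈ wd S n) : nm (vec w) ≤ 2 * (4 * B) ^ n := by
  have h := nm_act_wd_le hE hw (1, 2)
  rw [W_nm12] at h
  unfold vec
  linarith

theorem le_nm_vec {S : Finset (List ℕ)} {l B : ℕ} (hE : Ens S l B) {n : ℕ} {w : List ℕ}
    (hw : w ∈ wd S n) : 2 * (B : ℤ) ^ n ≤ 4 ^ n * nm (vec w) := by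
  have h := (act_pos_wd hE hw (1, 2) (by norm_num) (by norm_num)).2.2
  rw [W_nm12] at h
  unfold vec
  linarith

private theorem W_act_pos (w : List ℕ) (hd : ∀ a ∈ w, 1 ≤ a ∧ a ≤ 3) :
    0 < (act w (1, 2)).1 ∧ 0 < (act w (1, 2)).2 := by
  induction w with
  | nil => simp [act]
  | cons a w ih =>
    obtain ⟨h1, h2⟩ := ih (fun x hx => hd x (List.mem_cons_of_mem a hx))
    have h3 : (0 : ℤ) ≤ (a : ℤ) * (act w (1, 2)).2 := by positivity
    refine ⟨?_, ?_⟩
    · change 0 < (act w (1, 2)).2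
      exact h2
    · change 0 < (act w (1, 2)).1 + (a : ℤ) * (act w (1, 2)).2
      linarith

theorem vec_pos {S : Finset (List ℕ)} {l B : ℕ} (hE : Ens S l B) {n : ℕ} {w : List ℕ}
    (hw : w ∈ wd S n) : 0 < (vec w).1 ∧ 0 < (vec w).2 := by
  exact W_act_pos w (wd_dig hE hw)

/-- the row vectors lie in the box `[0, (4B)^n]²` -/
theorem row_box {S : Finset (List ℕ)} {l B : ℕ} (hE : Ens S l B) {n : ℕ} {w : List ℕ}
    (hw : w ∈ wd S n) :
    0 ≤ (row w (0, 1)).1 ∧ (row w (0, 1)).1 ≤ (4 * B) ^ n ∧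
      0 ≤ (row w (0, 1)).2 ∧ (row w (0, 1)).2 ≤ (4 * B) ^ n := by
  have e1 : (row w (0, 1)).1 = (act w (1, 0)).2 := by
    have h := dt_row w (0, 1) (1, 0)
    simpa [dt] using h
  have e2 : (row w (0, 1)).2 = (act w (0, 1)).2 := by
    have h := dt_row w (0, 1) (0, 1)
    simpa [dt] using h
  have n1 : nm (1, 0) = 1 := by simp [nm]
  have n2 : nm (0, 1) = 1 := by simp [nm]
  have a1 := act_pos_wd hE hw (1, 0) (by norm_num) (by norm_num)
  have a2 := act_pos_wd hE hw (0, 1) (by norm_num) (by norm_num)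
  have b1 := nm_act_wd_le hE hw (1, 0)
  have b2 := nm_act_wd_le hE hw (0, 1)
  rw [n1, mul_one] at b1
  rw [n2, mul_one] at b2
  have c1 := (le_abs_self _).trans (abs_snd_le (act w (1, 0)))
  have c2 := (le_abs_self _).trans (abs_snd_le (act w (0, 1)))
  rw [e1, e2]
  exact ⟨a1.2.1, c1.trans b1, a2.2.1, c2.trans b2⟩

end Pool.Agent.LibNZ69
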