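import Mathlib

set_option autoImplicit false

namespace Pool.Agent.LibNZ69

/-- determinant of two integer vectors -/
def wdg (x y : ℤ × ℤ) : ℤ := x.1 * y.2 - x.2 * y.1

/-- max norm -/
def nm (x : ℤ × ℤ) : ℤ := max |x.1| |x.2|

/-- scalar product -/
def dt (x y : ℤ × ℤ) : ℤ := x.1 * y.1 + x.2 * y.2

/-- action of a letter: `(x, y) ↦ (y, x + a y)` -/
def gl (a : ℕ) (v : ℤ × ℤ) : ℤ × ℤ := (v.2, v.1 + a * v.2)

/-- inverse action of a letter: `(x, y) ↦ (y - a x, x)` -/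
def gi (a : ℕ) (v : ℤ × ℤ) : ℤ × ℤ := (v.2 - a * v.1, v.1)

/-- action of a word: `act [a₁, …, a_m] v = g_{a₁} ⋯ g_{a_m} v` -/
def act : List ℕ → ℤ × ℤ → ℤ × ℤ
  | [], v => v
  | a :: w, v => gl a (act w v)

/-- inverse action: `acti [a₁, …, a_m] v = g_{a_m}⁻¹ ⋯ g_{a₁}⁻¹ v` -/
def acti : List ℕ → ℤ × ℤ → ℤ × ℤ
  | [], v => v
  | a :: w, v => acti w (gi a v)

/-- row action: `row [a₁, …, a_m] u = u g_{a₁} ⋯ g_{a_m}` -/
def row : List ℕ → ℤ × ℤ → ℤ × ℤ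
  | [], u => u
  | a :: w, u => row w (gl a u)

/-- the vector of a word -/
def vec (w : List ℕ) : ℤ × ℤ := act w (1, 2)

/-- words made of `n` blocks of `S` -/
def wd (S : Finset (List ℕ)) : ℕ → Finset (List ℕ)
  | 0 => {[]}
  | n + 1 => Finset.image₂ (fun b w => b ++ w) S (wd S n)

/-- the ensembles of blocks: common length `l`, digits `1, 2, 3`, continuants in `[B, 2B)` -/
structure Ens (S : Finset (List ℕ)) (l B : ℕ) : Prop where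
  lpos : 0 < l
  big : 2 ^ 16 ≤ B
  len : ∀ b ∈ S, b.length = l
  dig : ∀ b ∈ S, ∀ a ∈ b, 1 ≤ a ∧ a ≤ 3
  lo : ∀ b ∈ S, (B : ℤ) ≤ (act b (0, 1)).2
  hi : ∀ b ∈ S, (act b (0, 1)).2 < 2 * (B : ℤ)
  ne : S.Nonempty
  cardle : (S.card : ℝ) ≤ (B : ℝ) ^ (7 / 5 : ℝ)

/-- the contracting cone -/
def neg (y : ℤ × ℤ) : Prop := y.1 * y.2 < 0 ∧ |y.2| < |y.1|

/-- a box of integer vectors -/
noncomputable def zs (J : ℕ) : Finset (ℤ × ℤ) := Finset.Icc (-(J : ℤ)) J ×ˢ Finset.Icc (-(J : ℤ)) J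

/-- additive character modulo `M` -/
noncomputable def ch (M : ℕ) (x : ℤ) : ℂ :=
  Complex.exp (2 * Real.pi * Complex.I * (x : ℂ) / (M : ℂ))

/-- two integer vectors are `H`-close modulo `M` -/
def close (M H : ℕ) (y y' : ℤ × ℤ) : Prop :=
  ∃ t : ℤ × ℤ, nm t < H ∧ (M : ℤ) ∣ y.1 - y'.1 - t.1 ∧ (M : ℤ) ∣ y.2 - y'.2 - t.2

/-- data of a frequency in the class `(i, j)`: `k / M = a / q + r / (q M)`, `r = q k - a M`, with
`q ∈ [B^i, B^(i+1))` and `|r| / q ∈ [B^j, B^(j+1))` (only the upper bound if `j = 0`) -/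
structure Fr (M B i j : ℕ) (k q : ℕ) (a : ℤ) : Prop where
  cop : IsCoprime a (q : ℤ)
  qlo : B ^ i ≤ q
  qhi : q < B ^ (i + 1)
  rhi : |(q : ℤ) * k - a * M| < (B : ℤ) ^ (j + 1) * q
  rlo : j = 0 ∨ (B : ℤ) ^ j * q ≤ |(q : ℤ) * k - a * M|

/-- the relation between two frequencies `k`, `k'`, two vectors `v`, `v'` and a vector `z` -/
def Rel (M H k q : ℕ) (a : ℤ) (v : ℤ × ℤ) (k' q' : ℕ) (a' : ℤ) (v' z : ℤ × ℤ) : Prop :=
  ∃ ζ t : ℤ × ℤ, nm t < H ∧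
    ((q : ℤ) * a') • v' = (a * q') • v - z - ((q : ℤ) * q') • ζ ∧
    (M : ℤ) • z = ((q : ℤ) * q') • t - ((q' : ℤ) * ((q : ℤ) * k - a * M)) • v +
      ((q : ℤ) * ((q' : ℤ) * k' - a' * M)) • v'

end Pool.Agent.LibNZ69
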