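import Pool.Agent.LibNZ69.Defs

set_option autoImplicit false

namespace Pool.Agent.LibNZ69

open Finset

private theorem F0_pow (M : ℕ) (y : ℤ) (x : ℕ) :
    ch M (x * y) = (Complex.exp (2 * Real.pi * Complex.I * (y : ℂ) / (M : ℂ))) ^ x := by
  unfold ch
  rw [← Complex.exp_nat_mul]
  congr 1
  push_cast
  ring

/-- Row F0 (SHORT). Orthogonality. -/
theorem ch_orth (M : ℕ) (hM : 0 < M) (y : ℤ) :
    ∑ x ∈ range M, ch M (x * y) = if (M : ℤ) ∣ y then (M : ℂ) else 0 := by
  have hMC : (M : ℂ) ≠ 0 := by exact_mod_cast hM.ne'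
  have hpi : (2 * (Real.pi : ℂ) * Complex.I) ≠ 0 := Complex.two_pi_I_ne_zero
  have h1 : ∀ x ∈ range M, ch M ((x : ℕ) * y) =
      (Complex.exp (2 * Real.pi * Complex.I * (y : ℂ) / (M : ℂ))) ^ x :=
    fun x _ => F0_pow M y x
  rw [Finset.sum_congr rfl h1]
  set z : ℂ := Complex.exp (2 * Real.pi * Complex.I * (y : ℂ) / (M : ℂ)) with hz
  have hzM : z ^ M = 1 := by
    rw [hz, ← Complex.exp_nat_mul]
    rw [Complex.exp_eq_one_iff]
    refine ⟨y, ?_⟩
    field_simp
  split_ifs with hd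
  · obtain ⟨k, hk⟩ := hd
    have hz1 : z = 1 := by
      rw [hz, Complex.exp_eq_one_iff]
      refine ⟨k, ?_⟩
      rw [hk]
      push_cast
      field_simp
    rw [hz1]
    simp
  · have hz1 : z ≠ 1 := by
      intro h
      rw [hz, Complex.exp_eq_one_iff] at h
      obtain ⟨n, hn⟩ := h
      apply hd
      refine ⟨n, ?_⟩
      have h3 : (2 * (Real.pi : ℂ) * Complex.I) * ((y : ℂ) - (M : ℂ) * n) = 0 := by
        have h4 : (2 * (Real.pi : ℂ) * Complex.I) * (y : ℂ) / (M : ℂ) * (M : ℂ)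
            = (2 * (Real.pi : ℂ) * Complex.I) * (y : ℂ) := by
          field_simp
        have h5 : (2 * (Real.pi : ℂ) * Complex.I) * (y : ℂ)
            = n * (2 * (Real.pi : ℂ) * Complex.I) * (M : ℂ) := by
          rw [← h4, hn]
        linear_combination h5
      have h6 : (y : ℂ) - (M : ℂ) * n = 0 := by
        rcases mul_eq_zero.mp h3 with h | h
        · exact absurd h hpi
        · exact h
      have h7 : (y : ℂ) = ((M : ℤ) * n : ℤ) := by
        push_cast
        linear_combination h6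
      exact_mod_cast h7
    rw [geom_sum_eq hz1, hzM]
    simp

end Pool.Agent.LibNZ69
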