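import Pool.Agent.LibNZ69.F0

set_option autoImplicit false

namespace Pool.Agent.LibNZ69

open Finset

private lemma F2_ch_add (M : ℕ) (x y : ℤ) : ch M (x + y) = ch M x * ch M y := by
  unfold ch
  rw [← Complex.exp_add]
  congr 1
  push_cast
  ring

private lemma F2_ch_conj (M : ℕ) (x : ℤ) : (starRingEnd ℂ) (ch M x) = ch M (-x) := by
  unfold ch
  rw [← Complex.exp_conj]
  congr 1
  simp only [map_div₀, map_mul, Complex.conj_I, Complex.conj_ofReal, map_ofNat, map_natCast,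
    map_intCast]
  push_cast
  ring

private lemma F2_ch_re (M : ℕ) (x : ℤ) : (ch M x).re = Real.cos (2 * Real.pi * x / M) := by
  unfold ch
  have h : (2 * Real.pi * Complex.I * (x : ℂ) / (M : ℂ)) =
      ((2 * Real.pi * x / M : ℝ) : ℂ) * Complex.I := by
    push_cast
    ring
  rw [h, Complex.exp_ofReal_mul_I_re]

/-- the Fejer weight -/
private noncomputable def F2_phi (M H : ℕ) (x : ℤ) : ℝ :=
  ‖∑ h ∈ range H, ch M ((h : ℤ) * x)‖ ^ 2 / (H : ℝ) ^ 2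

private lemma F2_phi_nonneg (M H : ℕ) (x : ℤ) : 0 ≤ F2_phi M H x := by
  unfold F2_phi
  positivity

private lemma F2_phi_lower (M H L : ℕ) (hH : 1 ≤ H) (hL : 1 ≤ L) (hHL : 8 * (H * L) ≤ M) (x : ℤ)
    (hx0 : 0 ≤ x) (hxL : x ≤ L) : 1 / 2 ≤ F2_phi M H x := by
  have hM : (0 : ℝ) < M := by
    have : 0 < M := by
      have := Nat.mul_pos (show 0 < H from hH) (show 0 < L from hL)
      omega
    exact_mod_cast this
  have hH' : (0 : ℝ) < H := by exact_mod_cast hH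
  have hre : (H : ℝ) * (Real.sqrt 2 / 2) ≤ (∑ h ∈ range H, ch M ((h : ℤ) * x)).re := by
    rw [Complex.re_sum]
    have h1 : ∀ h ∈ range H, Real.sqrt 2 / 2 ≤ (ch M ((h : ℤ) * x)).re := by
      intro h hh
      rw [F2_ch_re, ← Real.cos_pi_div_four]
      have hx0' : (0 : ℝ) ≤ x := by exact_mod_cast hx0
      have hxL' : (x : ℝ) ≤ L := by exact_mod_cast hxL
      have hhH : (h : ℝ) ≤ H := by exact_mod_cast (mem_range.1 hh).le
      have hHL' : 8 * ((H : ℝ) * L) ≤ M := by exact_mod_cast hHL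
      have hpi := Real.pi_pos
      have h0 : 0 ≤ 2 * Real.pi * (((h : ℤ) * x : ℤ) : ℝ) / M := by
        push_cast
        positivity
      have h2 : 2 * Real.pi * (((h : ℤ) * x : ℤ) : ℝ) / M ≤ Real.pi / 4 := by
        rw [div_le_iff₀ hM]
        push_cast
        have h3 : (h : ℝ) * x ≤ H * L := mul_le_mul hhH hxL' hx0' hH'.le
        nlinarith [mul_le_mul_of_nonneg_left hHL' hpi.le, mul_le_mul_of_nonneg_left h3 hpi.le]
      exact Real.cos_le_cos_of_nonneg_of_le_pi h0 (by linarith) h2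
    calc (H : ℝ) * (Real.sqrt 2 / 2) = ∑ _h ∈ range H, Real.sqrt 2 / 2 := by
          rw [sum_const, card_range, nsmul_eq_mul]
      _ ≤ _ := sum_le_sum h1
  unfold F2_phi
  rw [le_div_iff₀ (by positivity)]
  have h4 := (le_abs_self _).trans (Complex.abs_re_le_norm (∑ h ∈ range H, ch M ((h : ℤ) * x)))
  have h5 : (H : ℝ) * (Real.sqrt 2 / 2) ≤ ‖∑ h ∈ range H, ch M ((h : ℤ) * x)‖ := hre.trans h4
  have h6 : ((H : ℝ) * (Real.sqrt 2 / 2)) ^ 2 ≤ ‖∑ h ∈ range H, ch M ((h : ℤ) * x)‖ ^ 2 :=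
    pow_le_pow_left₀ (by positivity) h5 2
  have h7 : ((H : ℝ) * (Real.sqrt 2 / 2)) ^ 2 = 1 / 2 * (H : ℝ) ^ 2 := by
    rw [mul_pow, div_pow, Real.sq_sqrt (by norm_num)]
    ring
  linarith

private lemma F2_phi_eq (M H : ℕ) (x : ℤ) : ((F2_phi M H x : ℝ) : ℂ) =
    (1 / (H : ℂ) ^ 2) * ∑ h ∈ range H, ∑ h' ∈ range H, ch M (x * ((h : ℤ) - h')) := by
  unfold F2_phi
  push_cast
  rw [← Complex.mul_conj', map_sum, sum_mul_sum, div_eq_mul_one_div, mul_comm]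
  congr 1
  refine sum_congr rfl fun h _ => sum_congr rfl fun h' _ => ?_
  rw [F2_ch_conj, ← F2_ch_add]
  congr 1
  ring

/-- the transform of the weight -/
private noncomputable def F2_tr (M H : ℕ) (y : ℤ) : ℂ :=
  ∑ x ∈ range M, ((F2_phi M H (x : ℤ) : ℝ) : ℂ) * ch M ((x : ℤ) * y)

private lemma F2_tr_eq (M H : ℕ) (hM : 0 < M) (y : ℤ) : F2_tr M H y =
    (1 / (H : ℂ) ^ 2) * ∑ h ∈ range H, ∑ h' ∈ range H,
      if (M : ℤ) ∣ (h : ℤ) - h' + y then (M : ℂ) else 0 := by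
  unfold F2_tr
  have h1 : ∀ x ∈ range M, ((F2_phi M H (x : ℤ) : ℝ) : ℂ) * ch M ((x : ℤ) * y) =
      (1 / (H : ℂ) ^ 2) * ∑ h ∈ range H, ∑ h' ∈ range H, ch M ((x : ℤ) * ((h : ℤ) - h' + y)) := by
    intro x _
    rw [F2_phi_eq, mul_assoc, sum_mul]
    congr 1
    refine sum_congr rfl fun h _ => ?_
    rw [sum_mul]
    refine sum_congr rfl fun h' _ => ?_
    rw [← F2_ch_add]
    congr 1
    ring
  rw [sum_congr rfl h1, ← mul_sum, sum_comm]
  congr 1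
  refine sum_congr rfl fun h _ => ?_
  rw [sum_comm]
  refine sum_congr rfl fun h' _ => ?_
  rw [ch_orth M hM]

private lemma F2_tr_norm (M H : ℕ) (hM : 0 < M) (hH : 1 ≤ H) (hHM : H ≤ M) (y : ℤ) :
    ‖F2_tr M H y‖ ≤ (M : ℝ) / H := by
  rw [F2_tr_eq M H hM]
  have hH' : (0 : ℝ) < H := by exact_mod_cast hH
  have h1 : ∀ h ∈ range H, ‖∑ h' ∈ range H,
      (if (M : ℤ) ∣ (h : ℤ) - h' + y then (M : ℂ) else 0)‖ ≤ M := by
    intro h _
    by_cases hex : ∃ h' ∈ range H, (M : ℤ) ∣ (h : ℤ) - h' + y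
    · obtain ⟨h0, hh0, hd0⟩ := hex
      rw [sum_eq_single_of_mem h0 hh0]
      · rw [if_pos hd0]
        simp
      · intro b hb hne
        rw [if_neg]
        intro hd
        apply hne
        have hd2 : (M : ℤ) ∣ (b : ℤ) - h0 := by
          have := dvd_sub hd0 hd
          have h3 : (h : ℤ) - h0 + y - ((h : ℤ) - b + y) = (b : ℤ) - h0 := by ring
          rwa [h3] at this
        have hb' := mem_range.1 hb
        have hh0' := mem_range.1 hh0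
        have h4 : |(b : ℤ) - h0| < M := by
          rw [abs_lt]
          constructor <;> omega
        have h5 := Int.eq_zero_of_abs_lt_dvd hd2 h4
        omega
    · rw [sum_eq_zero]
      · simp
      · intro b hb
        rw [if_neg]
        intro hd
        exact hex ⟨b, hb, hd⟩
  rw [norm_mul]
  have h2 : ‖(1 / (H : ℂ) ^ 2)‖ = 1 / (H : ℝ) ^ 2 := by
    rw [norm_div, norm_pow, norm_one, Complex.norm_natCast]
  rw [h2]
  have h3 : ‖∑ h ∈ range H, ∑ h' ∈ range H,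
      (if (M : ℤ) ∣ (h : ℤ) - h' + y then (M : ℂ) else 0)‖ ≤ H * M := by
    refine (norm_sum_le _ _).trans ((sum_le_sum h1).trans ?_)
    rw [sum_const, card_range, nsmul_eq_mul]
  calc 1 / (H : ℝ) ^ 2 * _ ≤ 1 / (H : ℝ) ^ 2 * (H * M) :=
        mul_le_mul_of_nonneg_left h3 (by positivity)
    _ = (M : ℝ) / H := by
        field_simp

private lemma F2_tr_zero (M H : ℕ) (hM : 0 < M) (y : ℤ) (h : F2_tr M H y ≠ 0) :
    ∃ t : ℤ, |t| < H ∧ (M : ℤ) ∣ y - t := by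
  by_contra hcon
  apply h
  rw [F2_tr_eq M H hM, sum_eq_zero, mul_zero]
  intro a ha
  refine sum_eq_zero fun b hb => ?_
  rw [if_neg]
  intro hd
  apply hcon
  have ha' := mem_range.1 ha
  have hb' := mem_range.1 hb
  refine ⟨(b : ℤ) - a, ?_, ?_⟩
  · rw [abs_lt]
    constructor <;> omega
  · have h3 : y - ((b : ℤ) - a) = (a : ℤ) - b + y := by ring
    rwa [h3]

private lemma F2_swap {α β : Type*} (R : Finset α) (I : Finset β) (T : α → α → β → β → ℂ) :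
    ∑ x ∈ R, ∑ x' ∈ R, ∑ i ∈ I, ∑ i' ∈ I, T x x' i i' =
      ∑ i ∈ I, ∑ i' ∈ I, ∑ x ∈ R, ∑ x' ∈ R, T x x' i i' := by
  calc ∑ x ∈ R, ∑ x' ∈ R, ∑ i ∈ I, ∑ i' ∈ I, T x x' i i' =
      ∑ x ∈ R, ∑ i ∈ I, ∑ x' ∈ R, ∑ i' ∈ I, T x x' i i' :=
        sum_congr rfl fun x _ => sum_comm
    _ = ∑ i ∈ I, ∑ x ∈ R, ∑ x' ∈ R, ∑ i' ∈ I, T x x' i i' := sum_comm
    _ = ∑ i ∈ I, ∑ x ∈ R, ∑ i' ∈ I, ∑ x' ∈ R, T x x' i i' :=
        sum_congr rfl fun i _ => sum_congr rfl fun x _ => sum_comm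
    _ = ∑ i ∈ I, ∑ i' ∈ I, ∑ x ∈ R, ∑ x' ∈ R, T x x' i i' :=
        sum_congr rfl fun i _ => sum_comm

private lemma F2_open (M H : ℕ) {ι : Type*} (I : Finset ι) (y : ι → ℤ × ℤ) (c : ι → ℂ) :
    ((∑ x ∈ range M, ∑ x' ∈ range M, F2_phi M H (x : ℤ) * F2_phi M H (x' : ℤ) *
      ‖∑ i ∈ I, c i * ch M ((x : ℤ) * (y i).1 + (x' : ℤ) * (y i).2)‖ ^ 2 : ℝ) : ℂ) =
      ∑ i ∈ I, ∑ i' ∈ I, c i * (starRingEnd ℂ) (c i') *
        (F2_tr M H ((y i).1 - (y i').1) * F2_tr M H ((y i).2 - (y i').2)) := by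
  have h1 : ∀ i ∈ I, ∀ i' ∈ I, c i * (starRingEnd ℂ) (c i') *
        (F2_tr M H ((y i).1 - (y i').1) * F2_tr M H ((y i).2 - (y i').2)) =
      ∑ x ∈ range M, ∑ x' ∈ range M,
        ((F2_phi M H (x : ℤ) : ℝ) : ℂ) * ((F2_phi M H (x' : ℤ) : ℝ) : ℂ) *
        ((c i * ch M ((x : ℤ) * (y i).1 + (x' : ℤ) * (y i).2)) *
          (starRingEnd ℂ) (c i' * ch M ((x : ℤ) * (y i').1 + (x' : ℤ) * (y i').2))) := by
    intro i _ i' _
    unfold F2_tr
    rw [sum_mul_sum, mul_sum]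
    refine sum_congr rfl fun x _ => ?_
    rw [mul_sum]
    refine sum_congr rfl fun x' _ => ?_
    rw [map_mul, F2_ch_conj]
    have h2 : ch M ((x : ℤ) * ((y i).1 - (y i').1)) * ch M ((x' : ℤ) * ((y i).2 - (y i').2)) =
        ch M ((x : ℤ) * (y i).1 + (x' : ℤ) * (y i).2) *
          ch M (-((x : ℤ) * (y i').1 + (x' : ℤ) * (y i').2)) := by
      rw [← F2_ch_add, ← F2_ch_add]
      congr 1
      ring
    calc _ = c i * (starRingEnd ℂ) (c i') * ((F2_phi M H (x : ℤ) : ℝ) : ℂ) *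
          ((F2_phi M H (x' : ℤ) : ℝ) : ℂ) * (ch M ((x : ℤ) * ((y i).1 - (y i').1)) *
            ch M ((x' : ℤ) * ((y i).2 - (y i').2))) := by ring
      _ = _ := by
          rw [h2]
          ring
  rw [sum_congr rfl fun i hi => sum_congr rfl fun i' hi' => h1 i hi i' hi', ← F2_swap]
  push_cast
  refine sum_congr rfl fun x _ => sum_congr rfl fun x' _ => ?_
  rw [← Complex.mul_conj', map_sum, sum_mul_sum, mul_sum]
  refine sum_congr rfl fun i _ => ?_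
  rw [mul_sum]

open Classical in
/-- Row F2 (MEDIUM). The large sieve with a Fejer weight. Put
`φ x = ‖(1/H) ∑_{h < H} ch M (h x)‖^2` for `x` modulo `M`. For `0 ≤ x ≤ L` all the angles
`2π h x / M` are at most `π / 4`, so `φ x ≥ 1/2`. Hence the left side is at most
`4 ∑_{x₁, x₂ mod M} φ x₁ φ x₂ ‖∑_i c_i ch M (x₁ y_i.1 + x₂ y_i.2)‖^2`; open the squares: by `ch_orth`
`∑_x φ x ch M (x y) = (M / H^2) #{(h, h') ∈ [0,H)² : M ∣ h - h' + y}`, which is `≤ M / H`, and is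
`0` unless `y` is congruent modulo `M` to an integer `t` with `|t| < H`. -/
theorem sieve (M H L : ℕ) (hH : 1 ≤ H) (hL : 1 ≤ L) (hHL : 8 * (H * L) ≤ M) (hLM : L < M) {ι : Type*}
    [DecidableEq ι] (I : Finset ι) (y : ι → ℤ × ℤ) (c : ι → ℂ) (V : Finset (ℤ × ℤ))
    (hV : ∀ v ∈ V, 0 ≤ v.1 ∧ v.1 ≤ L ∧ 0 ≤ v.2 ∧ v.2 ≤ L) :
    ∑ v ∈ V, ‖∑ i ∈ I, c i * ch M (dt v (y i))‖ ^ 2 ≤
      4 * ((M : ℝ) / H) ^ 2 *
        ∑ i ∈ I, ∑ i' ∈ I, if close M H (y i) (y i') then ‖c i‖ * ‖c i'‖ else 0 := by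
  have hHL0 : 0 < H * L := Nat.mul_pos hH hL
  have hM : 0 < M := by omega
  have hHM : H ≤ M := by nlinarith
  have hH' : (0 : ℝ) < H := by exact_mod_cast hH
  set A : ℤ → ℤ → ℂ := fun x x' => ∑ i ∈ I, c i * ch M (x * (y i).1 + x' * (y i).2) with hA
  have s1 : ∑ v ∈ V, ‖∑ i ∈ I, c i * ch M (dt v (y i))‖ ^ 2 ≤
      ∑ v ∈ V, 4 * (F2_phi M H v.1 * F2_phi M H v.2 * ‖A v.1 v.2‖ ^ 2) := by
    refine sum_le_sum fun v hv => ?_
    obtain ⟨a1, a2, a3, a4⟩ := hV v hv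
    have b1 := F2_phi_lower M H L hH hL hHL v.1 a1 a2
    have b2 := F2_phi_lower M H L hH hL hHL v.2 a3 a4
    have b3 : 1 / 4 ≤ F2_phi M H v.1 * F2_phi M H v.2 := by nlinarith
    have b4 : (∑ i ∈ I, c i * ch M (dt v (y i))) = A v.1 v.2 := rfl
    rw [b4]
    nlinarith [mul_le_mul_of_nonneg_right b3 (sq_nonneg ‖A v.1 v.2‖)]
  have s2 : ∑ v ∈ V, 4 * (F2_phi M H v.1 * F2_phi M H v.2 * ‖A v.1 v.2‖ ^ 2) ≤
      ∑ p ∈ range M ×ˢ range M, 4 * (F2_phi M H (p.1 : ℤ) * F2_phi M H (p.2 : ℤ) *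
        ‖A (p.1 : ℤ) (p.2 : ℤ)‖ ^ 2) := by
    have e1 : V = (V.image (fun v => (v.1.toNat, v.2.toNat))).image
        (fun p : ℕ × ℕ => ((p.1 : ℤ), (p.2 : ℤ))) := by
      rw [image_image]
      conv_lhs => rw [← image_id (s := V)]
      refine image_congr fun v hv => ?_
      obtain ⟨a1, a2, a3, a4⟩ := hV v hv
      simp only [id, Function.comp]
      rw [Int.toNat_of_nonneg a1, Int.toNat_of_nonneg a3]
    conv_lhs => rw [e1]
    rw [sum_image]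
    · refine sum_le_sum_of_subset_of_nonneg ?_ ?_
      · intro p hp
        rw [mem_image] at hp
        obtain ⟨v, hv, rfl⟩ := hp
        obtain ⟨a1, a2, a3, a4⟩ := hV v hv
        rw [mem_product, mem_range, mem_range]
        constructor <;> simp only <;> omega
      · intro p _ _
        have := F2_phi_nonneg M H (p.1 : ℤ)
        have := F2_phi_nonneg M H (p.2 : ℤ)
        positivity
    · intro p _ p' _ h
      simp only [Prod.mk.injEq, Nat.cast_inj] at h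
      exact Prod.ext h.1 h.2
  have s3 : ∑ p ∈ range M ×ˢ range M, 4 * (F2_phi M H (p.1 : ℤ) * F2_phi M H (p.2 : ℤ) *
        ‖A (p.1 : ℤ) (p.2 : ℤ)‖ ^ 2) =
      4 * ∑ x ∈ range M, ∑ x' ∈ range M, F2_phi M H (x : ℤ) * F2_phi M H (x' : ℤ) *
        ‖A (x : ℤ) (x' : ℤ)‖ ^ 2 := by
    rw [← mul_sum, sum_product]
  have s4 : ∑ x ∈ range M, ∑ x' ∈ range M, F2_phi M H (x : ℤ) * F2_phi M H (x' : ℤ) *
        ‖A (x : ℤ) (x' : ℤ)‖ ^ 2 ≤ ((M : ℝ) / H) ^ 2 *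
        ∑ i ∈ I, ∑ i' ∈ I, if close M H (y i) (y i') then ‖c i‖ * ‖c i'‖ else 0 := by
    have t1 := F2_open M H I y c
    have t2 : ∑ x ∈ range M, ∑ x' ∈ range M, F2_phi M H (x : ℤ) * F2_phi M H (x' : ℤ) *
        ‖A (x : ℤ) (x' : ℤ)‖ ^ 2 ≤ ‖∑ i ∈ I, ∑ i' ∈ I, c i * (starRingEnd ℂ) (c i') *
        (F2_tr M H ((y i).1 - (y i').1) * F2_tr M H ((y i).2 - (y i').2))‖ := by
      rw [← t1, Complex.norm_real]
      exact le_abs_self _
    refine t2.trans ((norm_sum_le _ _).trans ?_)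
    rw [mul_sum]
    refine sum_le_sum fun i _ => (norm_sum_le _ _).trans ?_
    rw [mul_sum]
    refine sum_le_sum fun i' _ => ?_
    rw [norm_mul, norm_mul, norm_mul, RCLike.norm_conj]
    by_cases hz : F2_tr M H ((y i).1 - (y i').1) = 0
    · rw [hz, norm_zero, zero_mul, mul_zero]
      split_ifs <;> positivity
    by_cases hz' : F2_tr M H ((y i).2 - (y i').2) = 0
    · rw [hz', norm_zero, mul_zero, mul_zero]
      split_ifs <;> positivity
    obtain ⟨t, ht, hd⟩ := F2_tr_zero M H hM _ hz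
    obtain ⟨t', ht', hd'⟩ := F2_tr_zero M H hM _ hz'
    have hc : close M H (y i) (y i') := by
      refine ⟨(t, t'), ?_, hd, hd'⟩
      unfold nm
      exact max_lt ht ht'
    rw [if_pos hc, mul_comm]
    refine mul_le_mul_of_nonneg_right ?_ (by positivity)
    rw [sq]
    exact mul_le_mul (F2_tr_norm M H hM hH hHM _) (F2_tr_norm M H hM hH hHM _) (norm_nonneg _)
      (by positivity)
  calc _ ≤ _ := s1
    _ ≤ _ := s2
    _ = _ := s3
    _ ≤ 4 * (((M : ℝ) / H) ^ 2 *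
        ∑ i ∈ I, ∑ i' ∈ I, if close M H (y i) (y i') then ‖c i‖ * ‖c i'‖ else 0) :=
        mul_le_mul_of_nonneg_left s4 (by norm_num)
    _ = _ := by ring

end Pool.Agent.LibNZ69
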